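import Pool.Agent.Q77.LU.StmU
import Pool.Agent.Q61.LU.Base

set_option autoImplicit false

/-! Project LU (helper77), uniform version: pointwise removal of the density. -/

namespace Pool.Agent.Q146.LU

open MeasureTheory Set Filter Topology
open scoped ContDiff
open Pool.Agent.Q77.LU Pool.Agent.Q61.LU

noncomputable section

variable {P Q : Type} [Fintype P] [DecidableEq P] [Fintype Q] [DecidableEq Q]

/-- the function with the density -/
def ph (L : Loc P Q) (f : (P → ℝ) × (Q → ℝ) → ℝ) (x : (P → ℝ) × (Q → ℝ)) : ℝ :=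
  f x * Real.sqrt (L.J x)

theorem ph_smooth (L : Loc P Q) {f : (P → ℝ) × (Q → ℝ) → ℝ} (hf : ContDiff ℝ ∞ f) :
    ContDiff ℝ ∞ (ph L f) := hf.mul (L.Jsm.sqrt fun x => (L.Jpos x).ne')

theorem ph_sq (L : Loc P Q) (f : (P → ℝ) × (Q → ℝ) → ℝ) (x : (P → ℝ) × (Q → ℝ)) :
    ph L f x ^ 2 = f x ^ 2 * L.J x := by
  unfold ph
  rw [mul_pow, Real.sq_sqrt (L.Jpos x).le]

/-- the product rule -/
theorem dir_ph (L : Loc P Q) {f : (P → ℝ) × (Q → ℝ) → ℝ} (hf : ContDiff ℝ 1 f)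
    (x v : (P → ℝ) × (Q → ℝ)) :
    fderiv ℝ f x v * Real.sqrt (L.J x) =
      fderiv ℝ (ph L f) x v - ph L f x * (fderiv ℝ L.J x v / (2 * L.J x)) := by
  have hJ : HasFDerivAt L.J (fderiv ℝ L.J x) x :=
    (L.Jsm.differentiable (by simp)).differentiableAt.hasFDerivAt
  have hf' : HasFDerivAt f (fderiv ℝ f x) x :=
    (hf.differentiable (by norm_num)).differentiableAt.hasFDerivAt
  have hs := hJ.sqrt (L.Jpos x).ne'
  have hp := (hf'.mul hs).fderiv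
  have e : (f * fun z => Real.sqrt (L.J z)) = ph L f := rfl
  have e2 : fderiv ℝ (ph L f) x v = (fderiv ℝ (f * fun z => Real.sqrt (L.J z)) x) v := by rw [e]
  have hsq : Real.sqrt (L.J x) ^ 2 = L.J x := Real.sq_sqrt (L.Jpos x).le
  have hpos : 0 < Real.sqrt (L.J x) := Real.sqrt_pos.2 (L.Jpos x)
  have e3 : (fderiv ℝ (f * fun z => Real.sqrt (L.J z)) x) v =
      f x * (1 / (2 * Real.sqrt (L.J x)) * fderiv ℝ L.J x v) + Real.sqrt (L.J x) * fderiv ℝ f x v := by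
    have h := congrArg (fun T : (P → ℝ) × (Q → ℝ) →L[ℝ] ℝ => T v) hp
    simpa using h
  rw [e2, e3]
  unfold ph
  have e4 : Real.sqrt (L.J x) * (fderiv ℝ L.J x v / (2 * L.J x)) =
      1 / (2 * Real.sqrt (L.J x)) * fderiv ℝ L.J x v := by
    rw [← hsq]
    field_simp
    rw [Real.sqrt_sq hpos.le]
  rw [mul_assoc, e4]
  ring

theorem sq_lower {a b g : ℝ} (hg : 0 < g) : (1 - g) * a ^ 2 - 1 / g * b ^ 2 ≤ (a - b) ^ 2 := by
  have h : (a - b) ^ 2 - ((1 - g) * a ^ 2 - 1 / g * b ^ 2) = (g * a - b) ^ 2 / g + b ^ 2 := by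
    field_simp
    ring
  have h2 : 0 ≤ (g * a - b) ^ 2 / g := by positivity
  have h3 := sq_nonneg b
  linarith

theorem sq_upper {a b g : ℝ} (hg : 0 < g) :
    (a - b) ^ 2 ≤ (1 + g) * a ^ 2 + (1 + 1 / g) * b ^ 2 := by
  have h : (1 + g) * a ^ 2 + (1 + 1 / g) * b ^ 2 - (a - b) ^ 2 = (g * a + b) ^ 2 / g := by
    field_simp
    ring
  have h2 : 0 ≤ (g * a + b) ^ 2 / g := by positivity
  linarith

/-- pointwise lower bound -/
theorem low_pt (L : Loc P Q) {f : (P → ℝ) × (Q → ℝ) → ℝ} (hf : ContDiff ℝ 1 f) {g Λ : ℝ} (hg : 0 < g)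
    {x : (P → ℝ) × (Q → ℝ)} (hJ : gC L.J x + gA L.J x ≤ (Λ * L.J x) ^ 2) :
    (1 - g) * (gC (ph L f) x + gA (ph L f) x) - 1 / g * (Λ ^ 2 / 4) * ph L f x ^ 2 ≤
      (gC f x + gA f x) * L.J x := by
  have hJp := L.Jpos x
  have hsq : Real.sqrt (L.J x) ^ 2 = L.J x := Real.sq_sqrt hJp.le
  have hdir : ∀ v : (P → ℝ) × (Q → ℝ), (1 - g) * fderiv ℝ (ph L f) x v ^ 2 -
      1 / g * (ph L f x ^ 2 / (4 * L.J x ^ 2)) * fderiv ℝ L.J x v ^ 2 ≤
        fderiv ℝ f x v ^ 2 * L.J x := by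
    intro v
    have h1 := sq_lower (a := fderiv ℝ (ph L f) x v)
      (b := ph L f x * (fderiv ℝ L.J x v / (2 * L.J x))) hg
    rw [← dir_ph L hf x v, mul_pow (fderiv ℝ f x v), hsq] at h1
    refine le_trans (le_of_eq ?_) h1
    congr 1
    field_simp
    ring
  have hC : (1 - g) * gC (ph L f) x - 1 / g * (ph L f x ^ 2 / (4 * L.J x ^ 2)) * gC L.J x ≤
      gC f x * L.J x := by
    unfold gC
    rw [Finset.mul_sum, Finset.mul_sum, Finset.sum_mul, ← Finset.sum_sub_distrib]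
    exact Finset.sum_le_sum fun i _ => hdir _
  have hA : (1 - g) * gA (ph L f) x - 1 / g * (ph L f x ^ 2 / (4 * L.J x ^ 2)) * gA L.J x ≤
      gA f x * L.J x := by
    unfold gA
    rw [Finset.mul_sum, Finset.mul_sum, Finset.sum_mul, ← Finset.sum_sub_distrib]
    exact Finset.sum_le_sum fun i _ => hdir _
  have hb : 1 / g * (ph L f x ^ 2 / (4 * L.J x ^ 2)) * (gC L.J x + gA L.J x) ≤
      1 / g * (Λ ^ 2 / 4) * ph L f x ^ 2 := by
    calc 1 / g * (ph L f x ^ 2 / (4 * L.J x ^ 2)) * (gC L.J x + gA L.J x) ≤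
        1 / g * (ph L f x ^ 2 / (4 * L.J x ^ 2)) * (Λ * L.J x) ^ 2 :=
          mul_le_mul_of_nonneg_left hJ (by positivity)
      _ = _ := by field_simp
  linarith

/-- pointwise upper bound -/
theorem up_pt (L : Loc P Q) {f : (P → ℝ) × (Q → ℝ) → ℝ} (hf : ContDiff ℝ 1 f) {g Λ : ℝ} (hg : 0 < g)
    {x : (P → ℝ) × (Q → ℝ)} (hJ : gC L.J x + gA L.J x ≤ (Λ * L.J x) ^ 2) :
    (gC f x + gA f x) * L.J x ≤
      (1 + g) * (gC (ph L f) x + gA (ph L f) x) + (1 + 1 / g) * (Λ ^ 2 / 4) * ph L f x ^ 2 := by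
  have hJp := L.Jpos x
  have hsq : Real.sqrt (L.J x) ^ 2 = L.J x := Real.sq_sqrt hJp.le
  have hdir : ∀ v : (P → ℝ) × (Q → ℝ), fderiv ℝ f x v ^ 2 * L.J x ≤
      (1 + g) * fderiv ℝ (ph L f) x v ^ 2 +
      (1 + 1 / g) * (ph L f x ^ 2 / (4 * L.J x ^ 2)) * fderiv ℝ L.J x v ^ 2 := by
    intro v
    have h1 := sq_upper (a := fderiv ℝ (ph L f) x v)
      (b := ph L f x * (fderiv ℝ L.J x v / (2 * L.J x))) hg
    rw [← dir_ph L hf x v, mul_pow (fderiv ℝ f x v), hsq] at h1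
    refine h1.trans (le_of_eq ?_)
    congr 1
    field_simp
    ring
  have hC : gC f x * L.J x ≤ (1 + g) * gC (ph L f) x +
      (1 + 1 / g) * (ph L f x ^ 2 / (4 * L.J x ^ 2)) * gC L.J x := by
    unfold gC
    rw [Finset.mul_sum, Finset.mul_sum, Finset.sum_mul, ← Finset.sum_add_distrib]
    exact Finset.sum_le_sum fun i _ => hdir _
  have hA : gA f x * L.J x ≤ (1 + g) * gA (ph L f) x +
      (1 + 1 / g) * (ph L f x ^ 2 / (4 * L.J x ^ 2)) * gA L.J x := by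
    unfold gA
    rw [Finset.mul_sum, Finset.mul_sum, Finset.sum_mul, ← Finset.sum_add_distrib]
    exact Finset.sum_le_sum fun i _ => hdir _
  have hb : (1 + 1 / g) * (ph L f x ^ 2 / (4 * L.J x ^ 2)) * (gC L.J x + gA L.J x) ≤
      (1 + 1 / g) * (Λ ^ 2 / 4) * ph L f x ^ 2 := by
    calc (1 + 1 / g) * (ph L f x ^ 2 / (4 * L.J x ^ 2)) * (gC L.J x + gA L.J x) ≤
        (1 + 1 / g) * (ph L f x ^ 2 / (4 * L.J x ^ 2)) * (Λ * L.J x) ^ 2 :=
          mul_le_mul_of_nonneg_left hJ (by positivity)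
      _ = _ := by field_simp
  linarith

end

end Pool.Agent.Q146.LU
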