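import Pool.Agent.Q146.LU.JRP
import Pool.Agent.Q61.LU.LLB

set_option autoImplicit false

/-! Project LU (helper77), uniform version, job LLBU: the local lower bound. -/

namespace Pool.Agent.Q146.LU

open MeasureTheory Set Filter Topology
open scoped ContDiff
open Pool.Agent.Q77.LU Pool.Agent.Q61.LU

noncomputable section

section
variable {P Q : Type} [Fintype P] [DecidableEq P] [Fintype Q] [DecidableEq Q]

/-- the conclusion of the fibre inequality for fixed parameters -/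
def FibC (Q : Type) [Fintype Q] [DecidableEq Q] (om : Q → ℝ) (K0 θ M : ℝ) : Prop :=
  ∀ g c : ℝ, 0 < g → g ≤ M⁻¹ → 0 ≤ c → c ≤ M⁻¹ → ∀ A : Matrix Q Q ℝ, A.IsSymm →
  (∀ i j, |A i j| ≤ K0 * c) → ∑ i, A i i / om i = 0 → ∀ u : (Q → ℝ) → ℝ, Continuous u →
  (∀ a : Q → ℝ, n2 a ≤ M⁻¹ ^ 2 →
    1 / 2 * ∑ i, om i ^ 2 * a i ^ 2 + 1 / 2 * ∑ i, a i * (A.mulVec a) i -
      K0 * (c ^ 2 * n2 a + nr a ^ 3) ≤ u a) →
  ∀ f : (Q → ℝ) → ℝ, ContDiff ℝ 1 f → (∀ a, f a ≠ 0 → n2 a < M⁻¹ ^ 2) →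
  (∫ a, (1 / 2 * ∑ i, om i - θ * c - M * (c ^ 2 + g)) * f a ^ 2) +
      M⁻¹ * ((∫ a, f a ^ 2) - (∫ a, f a * gau om g a) ^ 2) ≤
    ∫ a, (g ^ 2 / 2 * (1 - K0 * (c ^ 2 + g + n2 a)) * g2 f a + 1 / g ^ 2 * u a * f a ^ 2)

theorem fiberU (L : Loc P Q) {θ K0 M : ℝ} (hF : FibC Q L.om K0 θ M) (hM : 0 < M)
    (hKK : L.K ≤ K0) (hA : ∀ C i j, |L.A C i j| ≤ K0 * nr C) {δ : ℝ} (hδ : 0 < δ) (hδδ : δ ≤ M⁻¹)
    (hδr : δ ≤ L.r) {g : ℝ} (hg : 0 < g) (hgδ : g ≤ δ) {φ : (P → ℝ) × (Q → ℝ) → ℝ}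
    (hφ : ContDiff ℝ 1 φ) (hsupp : ∀ x, φ x ≠ 0 → nx x < δ ^ 2) (C : P → ℝ) :
    (∫ a, (L.e0 - θ * nr C - M * (n2 C + g)) * φ (C, a) ^ 2) +
      M⁻¹ * ((∫ a, φ (C, a) ^ 2) - (∫ a, φ (C, a) * gau L.om g a) ^ 2) ≤
      ∫ a, (g ^ 2 / 2 * (1 - K0 * (nx (C, a) + g)) * gA φ (C, a) +
        1 / g ^ 2 * (L.w (C, a) - (L.c4 - L.K * nr C) * L.v C) * φ (C, a) ^ 2) := by
  have hφs : HasCompactSupport φ := cs_nx (d := δ ^ 2) fun x hx => (hsupp x hx).le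
  have hφc : CC φ := ⟨hφ.continuous, hφs⟩
  by_cases hC : nr C ≤ δ
  swap
  · -- all vanishes
    have hz : ∀ a, φ (C, a) = 0 := by
      intro a
      by_contra h
      have h2 := hsupp _ h
      unfold nx at h2
      have h3 := n2_nonneg a
      have h4 : n2 C < δ ^ 2 := by simp only at h2; linarith
      rw [← nr_sq] at h4
      exact hC (abs_le_of_sq_le_sq' h4.le hδ.le).2
    have hz2 : ∀ a, gA φ (C, a) = 0 := by
      intro a
      rw [gA_eq hφ]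
      have : (fun a => φ (C, a)) = fun _ => 0 := funext hz
      rw [this]
      simp [g2, pd]
    simp [hz, hz2]
  · have hsec : ContDiff ℝ 1 (fun a => φ (C, a)) := hφ.comp (contDiff_const.prodMk contDiff_id)
    have hws : Continuous fun a => L.w (C, a) := L.wcont.comp (by fun_prop)
    set u : (Q → ℝ) → ℝ := fun a => max (L.w (C, a) - (L.c4 - L.K * nr C) * L.v C) (lowf L K0 C a)
      with hu
    have huc : Continuous u := by
      rw [hu]
      exact (hws.sub continuous_const).max (cont_lowf L K0 C)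
    have hsA : ∀ a, φ (C, a) ≠ 0 → n2 a < δ ^ 2 := by
      intro a ha
      have h2 := hsupp _ ha
      unfold nx at h2
      have h3 := n2_nonneg C
      simp only at h2; linarith
    have hδF2 : δ ^ 2 ≤ M⁻¹ ^ 2 := pow_le_pow_left₀ hδ.le hδδ 2
    have key := hF g (nr C) hg (hgδ.trans hδδ) (nr_nonneg C) (hC.trans hδδ) (L.A C) (L.Asymm C)
      (hA C) (L.Atr C) u huc
      (fun a _ => le_max_right _ _) (fun a => φ (C, a)) hsec (fun a ha => (hsA a ha).trans_le hδF2)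
    rw [nr_sq] at key
    refine key.trans ?_
    have hgc : CC (fun a => gA φ (C, a)) := (gA_cc hφ hφs).secR C
    have hpc : CC (fun a => φ (C, a) ^ 2) := (hφc.secR C).sq
    have hnx : Continuous fun a : Q → ℝ => nx (C, a) := cont_nx.comp (by fun_prop)
    have i1 : CC (fun a => g ^ 2 / 2 * (1 - K0 * (n2 C + g + n2 a)) * g2 (fun a => φ (C, a)) a +
        1 / g ^ 2 * u a * φ (C, a) ^ 2) := by
      have e1 : (fun a => g ^ 2 / 2 * (1 - K0 * (n2 C + g + n2 a)) * g2 (fun a => φ (C, a)) a +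
          1 / g ^ 2 * u a * φ (C, a) ^ 2) =
          fun a => (g ^ 2 / 2 * (1 - K0 * (n2 C + g + n2 a))) * gA φ (C, a) +
            (1 / g ^ 2 * u a) * φ (C, a) ^ 2 := by
        funext a
        rw [gA_eq hφ]
      rw [e1]
      have := cont_n2 (ι := Q)
      exact (CC.mulL (by fun_prop) hgc).add (CC.mulL (by fun_prop) hpc)
    have i2 : CC (fun a => g ^ 2 / 2 * (1 - K0 * (nx (C, a) + g)) * gA φ (C, a) +
        1 / g ^ 2 * (L.w (C, a) - (L.c4 - L.K * nr C) * L.v C) * φ (C, a) ^ 2) :=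
      (CC.mulL (by fun_prop) hgc).add (CC.mulL (by fun_prop) hpc)
    refine integral_mono i1.int i2.int fun a => ?_
    show g ^ 2 / 2 * (1 - K0 * (n2 C + g + n2 a)) * g2 (fun a => φ (C, a)) a +
      1 / g ^ 2 * u a * φ (C, a) ^ 2 ≤
      g ^ 2 / 2 * (1 - K0 * (nx (C, a) + g)) * gA φ (C, a) +
      1 / g ^ 2 * (L.w (C, a) - (L.c4 - L.K * nr C) * L.v C) * φ (C, a) ^ 2
    rw [gA_eq hφ]
    have hn : nx (C, a) + g = n2 C + g + n2 a := by unfold nx; ring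
    rw [hn]
    have t2 : 1 / g ^ 2 * u a * φ (C, a) ^ 2 ≤
        1 / g ^ 2 * (L.w (C, a) - (L.c4 - L.K * nr C) * L.v C) * φ (C, a) ^ 2 := by
      by_cases hz : φ (C, a) = 0
      · rw [hz]; simp
      · have h5 := hsupp _ hz
        have h6 : nx (C, a) ≤ L.r ^ 2 := h5.le.trans (pow_le_pow_left₀ hδ.le hδr 2)
        have h7 := L.tay _ h6
        have h8 := (abs_le.1 h7).1
        simp only at h8
        have h9 : u a = L.w (C, a) - (L.c4 - L.K * nr C) * L.v C := by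
          rw [hu]
          apply max_eq_left
          unfold lowf
          rw [nr_sq]
          have h10 : 0 ≤ n2 C * n2 a + nr a ^ 3 := by
            have := n2_nonneg C
            have := n2_nonneg a
            have := nr_nonneg a
            positivity
          nlinarith
        rw [h9]
    linarith

/-- the numerical conditions -/
structure Num (L : Loc P Q) (Λ ε θ M₁ δ : ℝ) : Prop where
  Λ1 : 1 ≤ Λ
  ε0 : 0 < ε
  ε1 : ε ≤ 1
  θ0 : 0 < θ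
  θ1 : 2 * θ ≤ ε / 2 * (Real.sqrt L.c4 * L.κ)
  M1 : 1 ≤ M₁
  δ0 : 0 < δ
  d1 : δ ≤ M₁⁻¹
  d3 : δ < L.r
  d4 : 2 * Λ * δ ≤ ε / 2
  d5 : L.K * δ ≤ ε / 2 * L.c4
  d6 : M₁ * δ ≤ θ

theorem llbu_core (h3 : S_SCS) (h4 : S_TSM) (L : Loc P Q) {Λ ε θ M₁ δ : ℝ} (hb : Bd L Λ)
    (hN : Num L Λ ε θ M₁ δ) (hF : FibC Q L.om Λ θ M₁) {g : ℝ} (hg : 0 < g) (hgδ : g ≤ δ)
    {f : (P → ℝ) × (Q → ℝ) → ℝ} (hf : ContDiff ℝ ∞ f) (hfs : ∀ x, f x ≠ 0 → nx x < δ ^ 2) :
  (L.e0 - (M₁ + Λ ^ 2) * g) * (∫ x, f x ^ 2 * L.J x) +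
      (1 - ε) * (∫ C, (g ^ 2 / 2 * g2 (L.T g f) C + L.c4 / g ^ 2 * L.v C * L.T g f C ^ 2)) +
      M₁⁻¹ * ((∫ x, f x ^ 2 * L.J x) - ∫ C, L.T g f C ^ 2) ≤
    ∫ x, (g ^ 2 / 2 * (1 - L.K * nx x) * (gC f x + gA f x) + 1 / g ^ 2 * L.w x * f x ^ 2) * L.J x := by
  obtain ⟨hΛ1, hε, hε1, hθ0, hθ1, hM1, hδ0, d1, d3, d4, d5, d6⟩ := hN
  have hc4 := L.c4pos
  have hκ := L.pos
  have hKL := L.K0
  have hKΛ : L.K ≤ Λ := hb.K
  have hδ1 : δ ≤ 1 / 4 := by nlinarith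
  have hδ2 : δ ^ 2 ≤ δ := by nlinarith
  -- the function with the density
  set φ : (P → ℝ) × (Q → ℝ) → ℝ := ph L f with hφ
  have hφd' : ContDiff ℝ ∞ φ := ph_smooth L hf
  have hφd : ContDiff ℝ 1 φ := hφd'.of_le (by norm_cast)
  have hfd : ContDiff ℝ 1 f := hf.of_le (by norm_cast)
  have hφz : ∀ x, φ x ≠ 0 → nx x < δ ^ 2 := fun x hx => hfs x (left_ne_zero_of_mul hx)
  have hfsc : HasCompactSupport f := cs_nx (d := δ ^ 2) fun x hx => (hfs x hx).le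
  have hφs : HasCompactSupport φ := cs_nx (d := δ ^ 2) fun x hx => (hφz x hx).le
  have hφc : CC φ := ⟨hφd.continuous, hφs⟩
  have hfc : CC f := ⟨hfd.continuous, hfsc⟩
  have hJ : ∀ x, f x ^ 2 * L.J x = φ x ^ 2 := fun x => (ph_sq L f x).symm
  simp_rw [hJ]
  -- continuity
  have kv := L.cont
  have kJ := L.Jsm.continuous
  have kw := L.wcont
  have knx : Continuous (nx : (P → ℝ) × (Q → ℝ) → ℝ) := cont_nx
  have kn2 := cont_n2 (ι := P)
  have knr := cont_nr (ι := P)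
  have cfC := gC_cc hfd hfsc
  have cfA := gA_cc hfd hfsc
  have cC := gC_cc hφd hφs
  have cA := gA_cc hφd hφs
  have c2 := hφc.sq
  -- step a: removal of the density
  have b0 : CC (fun x => (g ^ 2 / 2 * (1 - L.K * nx x) * (gC f x + gA f x) +
      1 / g ^ 2 * L.w x * f x ^ 2) * L.J x) :=
    CC.mulR ((CC.mulL (by fun_prop) (cfC.add cfA)).add (CC.mulL (by fun_prop) hfc.sq)) kJ
  have b4 : CC (fun x => g ^ 2 / 2 * (1 - Λ * (nx x + g)) * gC φ x +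
      1 / g ^ 2 * (L.c4 - L.K * nr x.1) * L.v x.1 * φ x ^ 2) :=
    (CC.mulL (by fun_prop) cC).add (CC.mulL (by fun_prop) c2)
  have b5 : CC (fun x => g ^ 2 / 2 * (1 - Λ * (nx x + g)) * gA φ x +
      1 / g ^ 2 * (L.w x - (L.c4 - L.K * nr x.1) * L.v x.1) * φ x ^ 2) :=
    (CC.mulL (by fun_prop) cA).add (CC.mulL (by fun_prop) c2)
  have ea : (∫ x, (g ^ 2 / 2 * (1 - Λ * (nx x + g)) * gC φ x +
        1 / g ^ 2 * (L.c4 - L.K * nr x.1) * L.v x.1 * φ x ^ 2)) +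
      (∫ x, (g ^ 2 / 2 * (1 - Λ * (nx x + g)) * gA φ x +
        1 / g ^ 2 * (L.w x - (L.c4 - L.K * nr x.1) * L.v x.1) * φ x ^ 2)) -
      Λ ^ 2 * g * (∫ x, φ x ^ 2) ≤
      ∫ x, (g ^ 2 / 2 * (1 - L.K * nx x) * (gC f x + gA f x) + 1 / g ^ 2 * L.w x * f x ^ 2) *
        L.J x := by
    rw [← integral_const_mul, ← integral_add b4.int b5.int,
      ← integral_sub (b4.add b5).int (c2.int.const_mul _)]
    refine integral_mono ((b4.add b5).int.sub (c2.int.const_mul _)) b0.int fun x => ?_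
    show (g ^ 2 / 2 * (1 - Λ * (nx x + g)) * gC φ x +
        1 / g ^ 2 * (L.c4 - L.K * nr x.1) * L.v x.1 * φ x ^ 2) +
      (g ^ 2 / 2 * (1 - Λ * (nx x + g)) * gA φ x +
        1 / g ^ 2 * (L.w x - (L.c4 - L.K * nr x.1) * L.v x.1) * φ x ^ 2) - Λ ^ 2 * g * φ x ^ 2 ≤
      (g ^ 2 / 2 * (1 - L.K * nx x) * (gC f x + gA f x) + 1 / g ^ 2 * L.w x * f x ^ 2) * L.J x
    have hgC := gC_nonneg φ x
    have hgA := gA_nonneg φ x
    have hnx0 := nx_nonneg x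
    have hpot : 1 / g ^ 2 * L.w x * f x ^ 2 * L.J x = 1 / g ^ 2 * L.w x * φ x ^ 2 := by
      rw [← hJ x]; ring
    have hmain : g ^ 2 / 2 * (1 - Λ * (nx x + g)) * (gC φ x + gA φ x) - Λ ^ 2 * g * φ x ^ 2 ≤
        g ^ 2 / 2 * (1 - L.K * nx x) * ((gC f x + gA f x) * L.J x) := by
      by_cases hx : nx x ≤ δ ^ 2
      · have hxr : nx x < L.r ^ 2 := lt_of_le_of_lt hx (pow_lt_pow_left₀ d3 hδ0.le (by norm_num))
        have h5 := low_pt L hfd hg (hb.J x hxr)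
        have h6 : L.K * nx x ≤ 1 := by
          calc L.K * nx x ≤ Λ * δ := mul_le_mul hKΛ (hx.trans hδ2) hnx0 (by linarith)
            _ ≤ 1 := by linarith
        have h7 : 0 ≤ g ^ 2 / 2 * (1 - L.K * nx x) := by
          have : 0 ≤ 1 - L.K * nx x := by linarith
          positivity
        have h8 := mul_le_mul_of_nonneg_left h5 h7
        refine le_trans ?_ h8
        have hG : 0 ≤ gC φ x + gA φ x := by linarith
        -- the kinetic factor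
        have h9 : 1 - Λ * (nx x + g) ≤ (1 - L.K * nx x) * (1 - g) := by
          have h10 : L.K * nx x ≤ Λ * nx x := mul_le_mul_of_nonneg_right hKΛ hnx0
          have h11 : 0 ≤ L.K * nx x * g := by positivity
          nlinarith
        have h12 : g ^ 2 / 2 * (1 - Λ * (nx x + g)) * (gC φ x + gA φ x) ≤
            g ^ 2 / 2 * ((1 - L.K * nx x) * (1 - g)) * (gC φ x + gA φ x) :=
          mul_le_mul_of_nonneg_right (mul_le_mul_of_nonneg_left h9 (by positivity)) hG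
        have h13 : g ^ 2 / 2 * (1 - L.K * nx x) * (1 / g * (Λ ^ 2 / 4) * φ x ^ 2) ≤
            Λ ^ 2 * g * φ x ^ 2 := by
          have e1 : g ^ 2 / 2 * (1 - L.K * nx x) * (1 / g * (Λ ^ 2 / 4) * φ x ^ 2) =
              (1 - L.K * nx x) / 8 * (Λ ^ 2 * g * φ x ^ 2) := by
            field_simp
            ring
          rw [e1]
          have h14 : (1 - L.K * nx x) / 8 ≤ 1 := by
            have : 0 ≤ L.K * nx x := by positivity
            linarith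
          have h15 : 0 ≤ Λ ^ 2 * g * φ x ^ 2 := by positivity
          calc (1 - L.K * nx x) / 8 * (Λ ^ 2 * g * φ x ^ 2) ≤ 1 * (Λ ^ 2 * g * φ x ^ 2) :=
                mul_le_mul_of_nonneg_right h14 h15
            _ = _ := one_mul _
        calc g ^ 2 / 2 * (1 - Λ * (nx x + g)) * (gC φ x + gA φ x) - Λ ^ 2 * g * φ x ^ 2
            ≤ g ^ 2 / 2 * ((1 - L.K * nx x) * (1 - g)) * (gC φ x + gA φ x) -
              g ^ 2 / 2 * (1 - L.K * nx x) * (1 / g * (Λ ^ 2 / 4) * φ x ^ 2) := by linarith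
          _ = _ := by ring
      · -- outside of the support
        have hφ0 : φ x = 0 := by
          by_contra h
          exact hx (hφz x h).le
        have hdφ : fderiv ℝ φ x = 0 := by
          by_contra h
          exact hx (fd_nx hφz h)
        have hdf : fderiv ℝ f x = 0 := by
          by_contra h
          exact hx (fd_nx hfs h)
        have z1 : gC φ x = 0 := by unfold gC; rw [hdφ]; simp
        have z2 : gA φ x = 0 := by unfold gA; rw [hdφ]; simp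
        have z3 : gC f x = 0 := by unfold gC; rw [hdf]; simp
        have z4 : gA f x = 0 := by unfold gA; rw [hdf]; simp
        rw [z1, z2, z3, z4, hφ0]
        simp
    calc (g ^ 2 / 2 * (1 - Λ * (nx x + g)) * gC φ x +
        1 / g ^ 2 * (L.c4 - L.K * nr x.1) * L.v x.1 * φ x ^ 2) +
      (g ^ 2 / 2 * (1 - Λ * (nx x + g)) * gA φ x +
        1 / g ^ 2 * (L.w x - (L.c4 - L.K * nr x.1) * L.v x.1) * φ x ^ 2) - Λ ^ 2 * g * φ x ^ 2
        = (g ^ 2 / 2 * (1 - Λ * (nx x + g)) * (gC φ x + gA φ x) - Λ ^ 2 * g * φ x ^ 2) +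
          1 / g ^ 2 * L.w x * φ x ^ 2 := by ring
      _ ≤ g ^ 2 / 2 * (1 - L.K * nx x) * ((gC f x + gA f x) * L.J x) +
          1 / g ^ 2 * L.w x * f x ^ 2 * L.J x := by rw [hpot]; linarith
      _ = _ := by ring
  -- step c
  obtain ⟨t1, t2, t3, t4, t5⟩ := h4 P Q L g hg f hf hfsc
  simp_rw [hJ] at t5
  have hT : CC (L.T g f) := ⟨t1.continuous, t2⟩
  have b6 : CC (fun x : (P → ℝ) × (Q → ℝ) => (L.e0 - θ * nr x.1 - M₁ * (n2 x.1 + g)) * φ x ^ 2) :=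
    CC.mulL (by fun_prop) c2
  have ec : (∫ x, (L.e0 - θ * nr x.1 - M₁ * (n2 x.1 + g)) * φ x ^ 2) +
      M₁⁻¹ * ((∫ x, φ x ^ 2) - ∫ C, L.T g f C ^ 2) ≤
      ∫ x, (g ^ 2 / 2 * (1 - Λ * (nx x + g)) * gA φ x +
        1 / g ^ 2 * (L.w x - (L.c4 - L.K * nr x.1) * L.v x.1) * φ x ^ 2) := by
    have i1 : Integrable (fun C => M₁⁻¹ * ((∫ a, φ (C, a) ^ 2) - L.T g f C ^ 2)) :=
      (c2.intL.sub hT.sq.int).const_mul _
    rw [b6.fub, c2.fub, b5.fub, ← integral_sub c2.intL hT.sq.int, ← integral_const_mul,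
      ← integral_add b6.intL i1]
    refine integral_mono (b6.intL.add i1) b5.intL fun C => ?_
    exact fiberU L hF (by linarith) hKΛ hb.A hδ0 d1 d3.le hg hgδ hφd hφz C
  -- step d
  set X : ℝ := ∫ x, (g ^ 2 / 2 * gC φ x + L.c4 / g ^ 2 * L.v x.1 * φ x ^ 2) with hX
  have b7 : CC (fun x : (P → ℝ) × (Q → ℝ) => g ^ 2 / 2 * gC φ x +
      L.c4 / g ^ 2 * L.v x.1 * φ x ^ 2) :=
    (CC.constL _ cC).add (CC.mulL (by fun_prop) c2)
  have hnrδ : ∀ x : (P → ℝ) × (Q → ℝ), nx x ≤ δ ^ 2 → nr x.1 ≤ δ := by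
    intro x hx
    have h5 : nr x.1 ^ 2 ≤ δ ^ 2 := by
      rw [nr_sq]
      unfold nx at hx
      have := n2_nonneg x.2
      linarith
    exact (abs_le_of_sq_le_sq' h5 hδ0.le).2
  have ed : (1 - ε / 2) * X ≤
      ∫ x, (g ^ 2 / 2 * (1 - Λ * (nx x + g)) * gC φ x +
        1 / g ^ 2 * (L.c4 - L.K * nr x.1) * L.v x.1 * φ x ^ 2) := by
    rw [hX, ← integral_const_mul]
    refine integral_mono (b7.int.const_mul _) b4.int fun x => ?_
    show (1 - ε / 2) * (g ^ 2 / 2 * gC φ x + L.c4 / g ^ 2 * L.v x.1 * φ x ^ 2) ≤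
      g ^ 2 / 2 * (1 - Λ * (nx x + g)) * gC φ x +
        1 / g ^ 2 * (L.c4 - L.K * nr x.1) * L.v x.1 * φ x ^ 2
    have p1 : (1 - ε / 2) * (g ^ 2 / 2 * gC φ x) ≤
        g ^ 2 / 2 * (1 - Λ * (nx x + g)) * gC φ x := by
      by_cases hz : fderiv ℝ φ x = 0
      · have : gC φ x = 0 := by
          unfold gC
          rw [hz]
          simp
        rw [this]
        simp
      · have h5 := fd_nx hφz hz
        have h6 : Λ * (nx x + g) ≤ ε / 2 := by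
          have h61 : nx x + g ≤ 2 * δ := by linarith [h5.trans hδ2]
          calc Λ * (nx x + g) ≤ Λ * (2 * δ) := mul_le_mul_of_nonneg_left h61 (by linarith)
            _ = 2 * Λ * δ := by ring
            _ ≤ ε / 2 := d4
        have h7 := gC_nonneg φ x
        have h8 : 0 ≤ g ^ 2 / 2 * gC φ x := by positivity
        calc (1 - ε / 2) * (g ^ 2 / 2 * gC φ x) ≤ (1 - Λ * (nx x + g)) * (g ^ 2 / 2 * gC φ x) :=
              mul_le_mul_of_nonneg_right (by linarith) h8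
          _ = g ^ 2 / 2 * (1 - Λ * (nx x + g)) * gC φ x := by ring
    have p2 : (1 - ε / 2) * (L.c4 / g ^ 2 * L.v x.1 * φ x ^ 2) ≤
        1 / g ^ 2 * (L.c4 - L.K * nr x.1) * L.v x.1 * φ x ^ 2 := by
      by_cases hz : φ x = 0
      · rw [hz]; simp
      · have h5 := hnrδ x (hφz x hz).le
        have h6 : L.K * nr x.1 ≤ ε / 2 * L.c4 := (mul_le_mul_of_nonneg_left h5 hKL).trans d5
        have h7 := L.nonneg x.1
        calc (1 - ε / 2) * (L.c4 / g ^ 2 * L.v x.1 * φ x ^ 2) =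
            ((1 - ε / 2) * L.c4) * (1 / g ^ 2 * L.v x.1 * φ x ^ 2) := by ring
          _ ≤ (L.c4 - L.K * nr x.1) * (1 / g ^ 2 * L.v x.1 * φ x ^ 2) :=
              mul_le_mul_of_nonneg_right (by linarith) (by positivity)
          _ = 1 / g ^ 2 * (L.c4 - L.K * nr x.1) * L.v x.1 * φ x ^ 2 := by ring
    linarith
  -- step e
  have b8 : CC (fun x : (P → ℝ) × (Q → ℝ) => nr x.1 * φ x ^ 2) := CC.mulL (by fun_prop) c2
  have ee : (L.e0 - M₁ * g) * (∫ x, φ x ^ 2) - (θ + M₁ * δ) * (∫ x, nr x.1 * φ x ^ 2) ≤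
      ∫ x, (L.e0 - θ * nr x.1 - M₁ * (n2 x.1 + g)) * φ x ^ 2 := by
    rw [← integral_const_mul, ← integral_const_mul,
      ← integral_sub (c2.int.const_mul _) (b8.int.const_mul _)]
    refine integral_mono ((c2.int.const_mul _).sub (b8.int.const_mul _)) b6.int fun x => ?_
    show (L.e0 - M₁ * g) * φ x ^ 2 - (θ + M₁ * δ) * (nr x.1 * φ x ^ 2) ≤
      (L.e0 - θ * nr x.1 - M₁ * (n2 x.1 + g)) * φ x ^ 2
    by_cases hz : φ x = 0
    · rw [hz]; simp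
    · have h5 := hnrδ x (hφz x hz).le
      have h6 : n2 x.1 ≤ δ * nr x.1 := by
        rw [← nr_sq]
        have := nr_nonneg x.1
        nlinarith
      have h7 : M₁ * n2 x.1 ≤ M₁ * (δ * nr x.1) := mul_le_mul_of_nonneg_left h6 (by linarith)
      have h8 : (L.e0 - M₁ * g) - (θ + M₁ * δ) * nr x.1 ≤
          L.e0 - θ * nr x.1 - M₁ * (n2 x.1 + g) := by linarith
      calc (L.e0 - M₁ * g) * φ x ^ 2 - (θ + M₁ * δ) * (nr x.1 * φ x ^ 2) =
          ((L.e0 - M₁ * g) - (θ + M₁ * δ) * nr x.1) * φ x ^ 2 := by ring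
        _ ≤ _ := mul_le_mul_of_nonneg_right h8 (sq_nonneg _)
  -- steps f, g
  have ef := X_ge_I1 h3 L hg hφd hφs
  have eg := X_ge_Y h4 L hg hf hfsc (φ := φ) rfl hφd hφs
  rw [← hX] at ef eg
  set Y : ℝ := ∫ C, (g ^ 2 / 2 * g2 (L.T g f) C + L.c4 / g ^ 2 * L.v C * L.T g f C ^ 2) with hY
  set I0 : ℝ := ∫ x, φ x ^ 2 with hI0
  set I1 : ℝ := ∫ x, nr x.1 * φ x ^ 2 with hI1
  set TT : ℝ := ∫ C, L.T g f C ^ 2 with hTT
  have hI00 : 0 ≤ I0 := integral_nonneg fun x => sq_nonneg _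
  have hI10 : 0 ≤ I1 := integral_nonneg fun x => mul_nonneg (nr_nonneg _) (sq_nonneg _)
  have s3 : (θ + M₁ * δ) * I1 ≤ ε / 2 * X := by
    have h5 : θ + M₁ * δ ≤ ε / 2 * (Real.sqrt L.c4 * L.κ) := by linarith
    calc (θ + M₁ * δ) * I1 ≤ ε / 2 * (Real.sqrt L.c4 * L.κ) * I1 :=
          mul_le_mul_of_nonneg_right h5 hI10
      _ = ε / 2 * (Real.sqrt L.c4 * L.κ * I1) := by ring
      _ ≤ ε / 2 * X := mul_le_mul_of_nonneg_left ef (by positivity)
  have s4 : (1 - ε) * Y ≤ (1 - ε) * X := mul_le_mul_of_nonneg_left eg (by linarith)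
  have s5 : (L.e0 - (M₁ + Λ ^ 2) * g) * I0 = (L.e0 - M₁ * g) * I0 - Λ ^ 2 * g * I0 := by ring
  have s6 : (1 - ε / 2) * X = (1 - ε) * X + ε / 2 * X := by ring
  linarith

end

theorem t_LLBU (h1 : S_FIBU) (h2 : S_SCS) (h3 : S_TSM) : S_LLBU := by
  obtain ⟨pF, CF, hCF, hF⟩ := h1
  refine ⟨pF + 2, fun ε₀ κ₀ hε₀ hκ₀ => ?_⟩
  set ε : ℝ := min ε₀ 1 with hε
  set κ1 : ℝ := min κ₀ 1 with hκ1
  have e0 : 0 < ε := lt_min hε₀ one_pos
  have e1 : ε ≤ 1 := min_le_right _ _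
  have k0 : 0 < κ1 := lt_min hκ₀ one_pos
  have k1 : κ1 ≤ 1 := min_le_right _ _
  set c : ℝ := ε * κ1 / 4 with hc
  have c0 : 0 < c := by positivity
  have c1 : c ≤ 1 / 4 := by
    rw [hc]
    have : ε * κ1 ≤ 1 := by nlinarith
    linarith
  have cε : c ≤ ε / 4 := by
    rw [hc]
    nlinarith
  set C₁ : ℝ := CF / c ^ pF with hC₁
  have hcp : c ^ pF ≤ 1 := pow_le_one₀ c0.le (by linarith)
  have hcp0 : 0 < c ^ pF := by positivity
  have hC₁1 : 1 ≤ C₁ := by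
    rw [hC₁, le_div_iff₀ hcp0]
    linarith
  set C : ℝ := 8 * C₁ / c with hCdef
  have hC8 : 8 * C₁ ≤ C := by
    rw [hCdef, le_div_iff₀ c0]
    nlinarith
  have hC1c : C₁ / c ≤ C := by
    rw [hCdef]
    refine div_le_div_of_nonneg_right (by linarith) c0.le
  have hC1 : 1 ≤ C := by linarith
  refine ⟨C, hC1, ?_⟩
  intro P Q _ _ _ _ L Λ M hb hκL hM g hg hgM f hf hfs
  have hΛ := hb.one
  have hΛ0 : 0 < Λ := by linarith
  have hΛp : 1 ≤ Λ ^ pF := one_le_pow₀ hΛ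
  set M₁ : ℝ := CF * (Λ / c) ^ pF with hM₁
  have hM₁' : M₁ = C₁ * Λ ^ pF := by
    rw [hM₁, hC₁, div_pow]
    field_simp
  have hM₁1 : 1 ≤ M₁ := by
    rw [hM₁']
    nlinarith
  have hMe : M = C * Λ ^ pF * Λ ^ 2 := by rw [hM, pow_add]; ring
  have hΛ2 : 1 ≤ Λ ^ 2 := one_le_pow₀ hΛ
  have hCΛ : C ≤ C * Λ ^ pF := le_mul_of_one_le_right (by linarith) hΛp
  have hM_C : C * Λ ^ 2 ≤ M := by
    rw [hMe]
    exact mul_le_mul_of_nonneg_right hCΛ (by positivity)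
  have hM_M1 : 8 * M₁ * Λ ^ 2 ≤ M := by
    rw [hMe, hM₁']
    have : 8 * (C₁ * Λ ^ pF) = 8 * C₁ * Λ ^ pF := by ring
    rw [this]
    exact mul_le_mul_of_nonneg_right (mul_le_mul_of_nonneg_right hC8 (by positivity))
      (by positivity)
  have hM_c : M₁ / c * Λ ^ 2 ≤ M := by
    rw [hMe, hM₁']
    have : C₁ * Λ ^ pF / c = C₁ / c * Λ ^ pF := by ring
    rw [this]
    exact mul_le_mul_of_nonneg_right (mul_le_mul_of_nonneg_right hC1c (by positivity))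
      (by positivity)
  have hM0 : 0 < M := by
    have : 0 < C * Λ ^ 2 := by positivity
    linarith
  have hC8' : 8 / c ≤ C := by
    rw [hCdef]
    exact div_le_div_of_nonneg_right (by linarith) c0.le
  have hκ1L : κ1 ≤ L.κ := (min_le_left _ _).trans hκL
  set θ : ℝ := c / Λ with hθ
  have hθ0 : 0 < θ := by positivity
  have hc4Λ : Λ⁻¹ ≤ Real.sqrt L.c4 := by
    refine Real.le_sqrt_of_sq_le (le_trans ?_ hb.c41)
    have h5 : Λ⁻¹ ≤ 1 := inv_le_one_of_one_le₀ hΛ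
    have h6 : 0 < Λ⁻¹ := by positivity
    nlinarith
  -- numerical conditions
  have hN : Num L Λ ε θ M₁ M⁻¹ := by
    refine ⟨hΛ, e0, e1, hθ0, ?_, hM₁1, by positivity, ?_, ?_, ?_, ?_, ?_⟩
    · have h5 : Λ⁻¹ * κ1 ≤ Real.sqrt L.c4 * L.κ :=
        mul_le_mul hc4Λ hκ1L k0.le (Real.sqrt_nonneg _)
      calc 2 * θ = ε / 2 * (Λ⁻¹ * κ1) := by rw [hθ, hc]; field_simp; ring
        _ ≤ _ := mul_le_mul_of_nonneg_left h5 (by positivity)
    · rw [inv_le_inv₀ hM0 (by linarith)]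
      have : M₁ ≤ 8 * M₁ * Λ ^ 2 := by nlinarith
      linarith
    · have h5 : 2 * Λ ≤ M := by
        have : 8 * Λ ≤ C * Λ ^ 2 := by nlinarith
        linarith
      have h6 : M⁻¹ < Λ⁻¹ := by
        rw [inv_lt_inv₀ hM0 hΛ0]
        linarith
      exact h6.trans_le hb.r1
    · rw [← div_eq_mul_inv, div_le_iff₀ hM0]
      have h5 : 8 / c * Λ ^ 2 ≤ M := (mul_le_mul_of_nonneg_right hC8' (by positivity)).trans hM_C
      have h6 : ε / 2 * (8 / c * Λ ^ 2) ≤ ε / 2 * M := mul_le_mul_of_nonneg_left h5 (by positivity)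
      refine le_trans ?_ h6
      have h7 : ε / 2 * (8 / c * Λ ^ 2) = (4 * ε / c) * Λ ^ 2 := by ring
      have h8 : 16 ≤ 4 * ε / c := by
        rw [le_div_iff₀ c0]
        linarith
      rw [h7]
      nlinarith
    · rw [← div_eq_mul_inv, div_le_iff₀ hM0]
      have h5 : 8 / c * Λ ^ 2 ≤ M := (mul_le_mul_of_nonneg_right hC8' (by positivity)).trans hM_C
      have h6 : ε / 2 * Λ⁻¹ * (8 / c * Λ ^ 2) ≤ ε / 2 * L.c4 * M := by
        refine mul_le_mul ?_ h5 (by positivity) ?_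
        · exact mul_le_mul_of_nonneg_left hb.c41 (by positivity)
        · have := L.c4pos
          positivity
      refine le_trans ?_ h6
      have h7 : ε / 2 * Λ⁻¹ * (8 / c * Λ ^ 2) = (4 * ε / c) * Λ := by
        field_simp
        ring
      have h8 : 16 ≤ 4 * ε / c := by
        rw [le_div_iff₀ c0]
        linarith
      rw [h7]
      have h9 := hb.K
      nlinarith
    · rw [← div_eq_mul_inv, div_le_iff₀ hM0]
      have h6 : θ * (M₁ / c * Λ ^ 2) ≤ θ * M := mul_le_mul_of_nonneg_left hM_c hθ0.le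
      refine le_trans ?_ h6
      have h7 : θ * (M₁ / c * Λ ^ 2) = M₁ * Λ := by
        rw [hθ]
        field_simp
      rw [h7]
      nlinarith
  have hΛc : Λ ≤ Λ / c := by
    rw [le_div_iff₀ c0]
    nlinarith
  have hF' : FibC Q L.om Λ θ M₁ := by
    refine hF Q L.om Λ θ (Λ / c) M₁ (hΛ.trans hΛc) (hb.cardQ.trans hΛc) (fun i => ⟨?_, ?_⟩)
      hΛ0.le hΛc ?_ rfl
    · refine le_trans ?_ (hb.om1 i)
      rw [inv_le_inv₀ (by positivity) hΛ0]
      exact hΛc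
    · exact (hb.om2 i).trans hΛc
    · rw [hθ, inv_div]
  have key := llbu_core h2 h3 L hb hN hF' hg hgM hf hfs
  refine le_trans ?_ key
  have hY0 : 0 ≤ ∫ C, (g ^ 2 / 2 * g2 (L.T g f) C + L.c4 / g ^ 2 * L.v C * L.T g f C ^ 2) := by
    refine integral_nonneg fun C => ?_
    have h1 := g2_nonneg (L.T g f) C
    have h2 := L.nonneg C
    have h3 := L.c4pos
    show 0 ≤ g ^ 2 / 2 * g2 (L.T g f) C + L.c4 / g ^ 2 * L.v C * L.T g f C ^ 2
    positivity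
  have q1 : (1 - ε₀) * (∫ C, (g ^ 2 / 2 * g2 (L.T g f) C + L.c4 / g ^ 2 * L.v C * L.T g f C ^ 2)) ≤
      (1 - ε) * (∫ C, (g ^ 2 / 2 * g2 (L.T g f) C + L.c4 / g ^ 2 * L.v C * L.T g f C ^ 2)) :=
    mul_le_mul_of_nonneg_right (by linarith [min_le_left ε₀ (1 : ℝ)]) hY0
  have hI0 : 0 ≤ ∫ x, f x ^ 2 * L.J x := integral_nonneg fun x =>
    mul_nonneg (sq_nonneg _) (L.Jpos x).le
  have q2 : (L.e0 - M * g) * (∫ x, f x ^ 2 * L.J x) ≤
      (L.e0 - (M₁ + Λ ^ 2) * g) * (∫ x, f x ^ 2 * L.J x) := by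
    refine mul_le_mul_of_nonneg_right ?_ hI0
    have h5 : M₁ + Λ ^ 2 ≤ M := by nlinarith
    have h6 := mul_le_mul_of_nonneg_right h5 hg.le
    linarith
  have hfsc : HasCompactSupport f := cs_nx (d := M⁻¹ ^ 2) fun x hx => (hfs x hx).le
  obtain ⟨-, -, -, -, t5⟩ := h3 P Q L g hg f hf hfsc
  have q3 : M⁻¹ * ((∫ x, f x ^ 2 * L.J x) - ∫ C, L.T g f C ^ 2) ≤
      M₁⁻¹ * ((∫ x, f x ^ 2 * L.J x) - ∫ C, L.T g f C ^ 2) :=
    mul_le_mul_of_nonneg_right hN.d1 (by linarith)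
  linarith

end

end Pool.Agent.Q146.LU
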