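import Pool.Agent.Q146.LU.JRP
import Pool.Agent.Q61.LU.UPB

set_option autoImplicit false

/-! Project LU (helper77), uniform version, job UPBU: the upper bound by trial functions. -/

namespace Pool.Agent.Q146.LU

open MeasureTheory Set Filter Topology
open scoped ContDiff
open Pool.Agent.Q77.LU Pool.Agent.Q61.LU

noncomputable section

section
variable {P Q : Type} [Fintype P] [DecidableEq P] [Fintype Q] [DecidableEq Q]

/-- the conclusion of the job GMU for fixed parameters -/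
def GmC (Q : Type) [Fintype Q] [DecidableEq Q] (om : Q → ℝ) (δ M g : ℝ) : Prop :=
  ∀ G : (Q → ℝ) → ℝ, G = (fun a => gau om g a * cutb (4 * n2 a / δ ^ 2)) →
  ContDiff ℝ ∞ G ∧ HasCompactSupport G ∧
  1 - M * g ^ 2 ≤ ∫ a, G a ^ 2 ∧ ∫ a, G a ^ 2 ≤ 1 ∧
  ∫ a, (g ^ 2 / 2 * g2 G a + 1 / (2 * g ^ 2) * (∑ i, om i ^ 2 * a i ^ 2) * G a ^ 2) ≤
    1 / 2 * (∑ i, om i) + M * g ^ 2 ∧
  ∫ a, g2 G a ≤ M / g ^ 2 ∧ ∫ a, n2 a * g2 G a ≤ M ∧
  ∫ a, n2 a * G a ^ 2 ≤ M * g ^ 2 ∧ ∫ a, nr a ^ 3 * G a ^ 2 ≤ M * g ^ 3 ∧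
  (∀ i j, i ≠ j → ∫ a, a i * a j * G a ^ 2 = 0) ∧
  ∀ i, |(∫ a, a i ^ 2 * G a ^ 2) - g ^ 2 / (2 * om i)| ≤ M * g ^ 4

/-- the constants -/
def kk1 (L : Loc P Q) (R KG : ℝ) : ℝ := L.K * R ^ 2 / 2 + (1 + L.c4) * L.K * KG / 2

def kk2 (L : Loc P Q) (R KG : ℝ) : ℝ :=
  L.K * KG * R ^ 2 * (1 + 1 / L.c4) / 2 + L.K * KG / 2

def kk3 (L : Loc P Q) (Λ R V KG : ℝ) : ℝ :=
  1 / 2 * Fintype.card Q * Λ * R * KG * (1 + 1 / L.c4) +
    L.K * (R * V * (1 + L.c4) / L.c4 + R ^ 2 * KG * (1 + 1 / L.c4) + KG)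

def kk (L : Loc P Q) (Λ R V KG : ℝ) : ℝ :=
  (kk1 L R KG + ((1 + L.c4) / 2 + kk1 L R KG)) +
  (kk2 L R KG + kk3 L Λ R V KG + KG + Λ ^ 3 + (KG / 2 + kk2 L R KG))

theorem upbu_core (L : Loc P Q) {δ R V Λ KG g : ℝ} (hb : Bd L Λ) (hδ : 0 < δ) (hδr : δ ≤ L.r)
    (hR : 0 < R) (hV0 : 0 ≤ V) (hV : ∀ y, n2 y ≤ R ^ 2 → L.v y ≤ V) (hKG0 : 0 ≤ KG) (hg : 0 < g)
    (hg1 : g ≤ 1) (hg2 : g * (2 * R ^ 2 * (1 + 1 / L.c4)) ≤ δ ^ 2) (hGM : GmC Q L.om δ KG g)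
    (ψ : (P → ℝ) → ℝ) (hψ : ContDiff ℝ ∞ ψ) (hψs : ∀ C, ψ C ≠ 0 → n2 C ≤ R ^ 2) :
    ContDiff ℝ ∞ (L.trial g δ ψ) ∧ (∀ x, L.trial g δ ψ x ≠ 0 → nx x < δ ^ 2) ∧
    (1 - kk L Λ R V KG * g) * (∫ C, ψ C ^ 2) ≤ (∫ x, L.trial g δ ψ x ^ 2 * L.J x) ∧
    (∫ x, L.trial g δ ψ x ^ 2 * L.J x) ≤ (∫ C, ψ C ^ 2) ∧
    ∫ x, (g ^ 2 / 2 * (1 + L.K * nx x) * (gC (L.trial g δ ψ) x + gA (L.trial g δ ψ) x) +
      1 / g ^ 2 * L.w x * L.trial g δ ψ x ^ 2) * L.J x ≤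
    L.e0 * (∫ C, ψ C ^ 2) + L.E g * qf L.v ψ + kk L Λ R V KG * g * ∫ C, (ψ C ^ 2 + g2 ψ C) := by
  have hc4 := L.c4pos
  have hKL := L.K0
  have hΛ1 := hb.one
  set KA : ℝ := Λ with hKAdef
  have hKA0 : 0 ≤ KA := by linarith
  have hKA : ∀ C i j, |L.A C i j| ≤ KA * nr C := hb.A
  set B : ℝ := 1 + 1 / L.c4 with hB
  set F : ℝ := 1 + L.c4 with hF
  have hB0 : 0 < B := by positivity
  have hF0 : 0 < F := by positivity
  set k1 : ℝ := L.K * R ^ 2 / 2 + F * L.K * KG / 2 with hk1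
  set k2a : ℝ := L.K * KG * R ^ 2 * B / 2 + L.K * KG / 2 with hk2a
  set k2b : ℝ := 1 / 2 * Fintype.card Q * KA * R * KG * B +
    L.K * (R * V * F / L.c4 + R ^ 2 * KG * B + KG) with hk2b
  have hk10 : 0 ≤ k1 := by positivity
  have hk2a0 : 0 ≤ k2a := by positivity
  have hk2b0 : 0 ≤ k2b := by positivity
  have hkk : kk L Λ R V KG = (k1 + (F / 2 + k1)) + (k2a + k2b + KG + Λ ^ 3 + (KG / 2 + k2a)) := rfl
  rw [hkk]
  set kD : ℝ := k1 + (F / 2 + k1) with hkD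
  set kΨ : ℝ := k2a + k2b + KG + Λ ^ 3 + (KG / 2 + k2a) with hkΨ
  have hΛ3 : 0 ≤ Λ ^ 3 := by positivity
  have hkD0 : 0 ≤ kD := by positivity
  have hkΨ0 : 0 ≤ kΨ := by positivity
  have hgq : g ^ 2 ≤ g := by nlinarith
  obtain ⟨hs, hc6, hE0, hE2, hE4, hs2, hs1, hEF, hsE⟩ := scale_facts L hg hg1
  rw [← hB] at hs2 hs1
  rw [← hF] at hEF hsE
  set s : ℝ := L.s g with hsdef
  set E : ℝ := L.E g with hEdef
  set k : ℝ := s ^ (-(Fintype.card P : ℝ) / 2) with hkdef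
  have hk : k ^ 2 * s ^ Fintype.card P = 1 := k_sq hs _
  set φ : (P → ℝ) → ℝ := phi k s ψ with hφdef
  set G : (Q → ℝ) → ℝ := fun a => gau L.om g a * cutb (4 * n2 a / δ ^ 2) with hGdef
  obtain ⟨G1, G2, G3, G4, G5, G6, G7, G8, G9, G10, G11⟩ := hGM G rfl
  have hψ1 : ContDiff ℝ 1 ψ := hψ.of_le (by norm_cast)
  have hψsc : HasCompactSupport ψ := cs_n2 (d := R ^ 2) hψs
  have hψc : CC ψ := ⟨hψ.continuous, hψsc⟩
  have hφ : ContDiff ℝ ∞ φ := phi_smooth hψ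
  have hφ1 : ContDiff ℝ 1 φ := hφ.of_le (by norm_cast)
  have hφs : ∀ C, φ C ≠ 0 → n2 C ≤ s ^ 2 * R ^ 2 := phi_supp hs hψs
  have hφsc : HasCompactSupport φ := cs_n2 hφs
  have hφc : CC φ := ⟨hφ.continuous, hφsc⟩
  have hG1 : ContDiff ℝ 1 G := G1.of_le (by norm_cast)
  have hGc : CC G := ⟨G1.continuous, G2⟩
  have hGs : ∀ a, G a ≠ 0 → n2 a < δ ^ 2 / 4 := by
    intro a ha
    by_contra h
    rw [not_lt] at h
    apply ha
    rw [hGdef]
    simp only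
    rw [cutb_zero, mul_zero]
    rw [le_div_iff₀ (by positivity)]
    linarith
  have hsR : s ^ 2 * R ^ 2 ≤ δ ^ 2 / 2 := by
    calc s ^ 2 * R ^ 2 ≤ (g * B) * R ^ 2 := mul_le_mul_of_nonneg_right hs2 (by positivity)
      _ = g * (2 * R ^ 2 * B) / 2 := by ring
      _ ≤ δ ^ 2 / 2 := by linarith
  have hnx : ∀ C a, φ C ≠ 0 → G a ≠ 0 → nx (C, a) < δ ^ 2 := by
    intro C a hC ha
    have e1 := hφs C hC
    have e2 := hGs a ha
    have e3 : 0 < δ ^ 2 := by positivity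
    show n2 C + n2 a < δ ^ 2
    linarith
  have hnx' : ∀ C a, φ C ≠ 0 → G a ≠ 0 → nx (C, a) < 3 / 4 * δ ^ 2 := by
    intro C a hC ha
    have e1 := hφs C hC
    have e2 := hGs a ha
    show n2 C + n2 a < 3 / 4 * δ ^ 2
    linarith
  have hδr2 : δ ^ 2 ≤ L.r ^ 2 := pow_le_pow_left₀ hδ.le hδr 2
  have htr : ∀ x, L.trial g δ ψ x = (Real.sqrt (L.J x))⁻¹ * (φ x.1 * G x.2) := fun x => trial_eq L g δ ψ x
  have hJp : ∀ x, 0 < Real.sqrt (L.J x) := fun x => Real.sqrt_pos.2 (L.Jpos x)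
  have htJ : ∀ x, L.trial g δ ψ x * Real.sqrt (L.J x) = φ x.1 * G x.2 := by
    intro x
    rw [htr, mul_comm, ← mul_assoc, mul_inv_cancel₀ (hJp x).ne', one_mul]
  have htsm : ContDiff ℝ ∞ (L.trial g δ ψ) := by
    have e1 : L.trial g δ ψ = fun x => (Real.sqrt (L.J x))⁻¹ * (φ x.1 * G x.2) := funext htr
    rw [e1]
    exact ((L.Jsm.sqrt fun x => (L.Jpos x).ne').inv fun x => (hJp x).ne').mul
      ((hφ.comp contDiff_fst).mul (G1.comp contDiff_snd))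
  have hts : ∀ x, L.trial g δ ψ x ≠ 0 → nx x < δ ^ 2 := by
    intro x hx
    rw [htr] at hx
    have e1 := right_ne_zero_of_mul hx
    exact hnx x.1 x.2 (left_ne_zero_of_mul e1) (right_ne_zero_of_mul e1)
  have ht2 : ∀ x, L.trial g δ ψ x ^ 2 * L.J x = φ x.1 ^ 2 * G x.2 ^ 2 := by
    intro x
    calc L.trial g δ ψ x ^ 2 * L.J x = (L.trial g δ ψ x * Real.sqrt (L.J x)) ^ 2 := by
          rw [mul_pow, Real.sq_sqrt (L.Jpos x).le]
      _ = φ x.1 ^ 2 * G x.2 ^ 2 := by rw [htJ]; ring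
  -- integrals of `φ`
  set Ψ : ℝ := ∫ C, ψ C ^ 2 with hΨ
  set D : ℝ := ∫ C, g2 ψ C with hD
  set Iv : ℝ := ∫ C, L.v C * ψ C ^ 2 with hIv
  have hΨ0 : 0 ≤ Ψ := integral_nonneg fun C => sq_nonneg _
  have hD0 : 0 ≤ D := integral_nonneg fun C => g2_nonneg _ _
  have hIv0 : 0 ≤ Iv := integral_nonneg fun C => mul_nonneg (L.nonneg C) (sq_nonneg _)
  have eΨ : ∫ C, φ C ^ 2 = Ψ := by
    rw [hΨ]
    refine Eq.trans ?_ (sc_int hs hk (fun C => ψ C ^ 2))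
    refine integral_congr_ae (Eventually.of_forall fun C => ?_)
    show (k * ψ (s⁻¹ • C)) ^ 2 = k ^ 2 * ψ (s⁻¹ • C) ^ 2
    ring
  have eD : g ^ 2 * ∫ C, g2 φ C = E * D := by
    have e1 : ∫ C, g2 φ C = s⁻¹ ^ 2 * D := by
      rw [hD, ← integral_const_mul]
      refine Eq.trans ?_ (sc_int hs hk (fun C => s⁻¹ ^ 2 * g2 ψ C))
      refine integral_congr_ae (Eventually.of_forall fun C => ?_)
      show g2 φ C = k ^ 2 * (s⁻¹ ^ 2 * g2 ψ (s⁻¹ • C))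
      rw [hφdef, phi_g2 hψ1]
    rw [e1, ← hE2]
    field_simp
  have eIv : ∫ C, L.v C * φ C ^ 2 = s ^ 4 * Iv := by
    rw [hIv, ← integral_const_mul]
    refine Eq.trans ?_ (sc_int hs hk (fun C => s ^ 4 * (L.v C * ψ C ^ 2)))
    refine integral_congr_ae (Eventually.of_forall fun C => ?_)
    show L.v C * (k * ψ (s⁻¹ • C)) ^ 2 = k ^ 2 * (s ^ 4 * (L.v (s⁻¹ • C) * ψ (s⁻¹ • C) ^ 2))
    have e1 : L.v C = s ^ 4 * L.v (s⁻¹ • C) := by
      rw [← L.hom, smul_smul, mul_inv_cancel₀ hs.ne', one_smul]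
    rw [e1]
    ring
  have hI2 : ∫ x, L.trial g δ ψ x ^ 2 * L.J x = Ψ * ∫ a, G a ^ 2 := by
    simp_rw [ht2]
    rw [prod_int (fun C => φ C ^ 2) (fun a => G a ^ 2), eΨ]
  have hm0 : 0 ≤ ∫ a, G a ^ 2 := integral_nonneg fun a => sq_nonneg _
  refine ⟨htsm, hts, ?_, ?_, ?_⟩
  · rw [hI2, mul_comm]
    refine mul_le_mul_of_nonneg_left (le_trans ?_ G3) hΨ0
    have e1 : KG ≤ kD + kΨ := by
      have h5 : kΨ = (k2a + k2b + Λ ^ 3 + (KG / 2 + k2a)) + KG := by rw [hkΨ]; ring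
      have h6 : 0 ≤ k2a + k2b + Λ ^ 3 + (KG / 2 + k2a) := by positivity
      linarith
    have e2 : KG * g ^ 2 ≤ (kD + kΨ) * g := by
      have : g ^ 2 ≤ g := hgq
      calc KG * g ^ 2 ≤ KG * g := mul_le_mul_of_nonneg_left this hKG0
        _ ≤ _ := mul_le_mul_of_nonneg_right e1 hg.le
    linarith
  · rw [hI2]
    calc Ψ * ∫ a, G a ^ 2 ≤ Ψ * 1 := mul_le_mul_of_nonneg_left G4 hΨ0
      _ = Ψ := mul_one _
  · -- the energy
    set f : (P → ℝ) × (Q → ℝ) → ℝ := L.trial g δ ψ with hf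
    have hfd : ContDiff ℝ 1 f := htsm.of_le (by norm_cast)
    have hfsc : HasCompactSupport f := cs_nx (d := δ ^ 2) fun x hx => (hts x hx).le
    have knx : Continuous (nx : (P → ℝ) × (Q → ℝ) → ℝ) := cont_nx
    have kJ := L.Jsm.continuous
    have kw := L.wcont
    have cfC := gC_cc hfd hfsc
    have cfA := gA_cc hfd hfsc
    have b1 : CC (fun x => (1 + L.K * nx x) * (gC f x + gA f x) * L.J x) :=
      CC.mulR (CC.mulL (by fun_prop) (cfC.add cfA)) kJ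
    have b2 : CC (fun x : (P → ℝ) × (Q → ℝ) => L.w x * (φ x.1 ^ 2 * G x.2 ^ 2)) := CC.mulL kw (CC.prod hφc.sq hGc.sq)
    have ea : ∫ x, (g ^ 2 / 2 * (1 + L.K * nx x) * (gC f x + gA f x) + 1 / g ^ 2 * L.w x * f x ^ 2) * L.J x =
        g ^ 2 / 2 * (∫ x, (1 + L.K * nx x) * (gC f x + gA f x) * L.J x) +
          1 / g ^ 2 * ∫ x : (P → ℝ) × (Q → ℝ), L.w x * (φ x.1 ^ 2 * G x.2 ^ 2) := by
      rw [← integral_const_mul, ← integral_const_mul, ← integral_add (b1.int.const_mul _) (b2.int.const_mul _)]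
      refine integral_congr_ae (Eventually.of_forall fun x => ?_)
      simp only
      rw [← ht2 x]
      ring
    have hff : ph L f = fun z : (P → ℝ) × (Q → ℝ) => φ z.1 * G z.2 := funext htJ
    have cgφ := g2_cc hφ1 hφsc
    have cgG := g2_cc hG1 G2
    have c1 : CC (fun x : (P → ℝ) × (Q → ℝ) => (1 + L.K * nx x) * (g2 φ x.1 * G x.2 ^ 2)) :=
      CC.mulL (by fun_prop) (CC.prod cgφ hGc.sq)
    have c2 : CC (fun x : (P → ℝ) × (Q → ℝ) => (1 + L.K * nx x) * (φ x.1 ^ 2 * g2 G x.2)) :=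
      CC.mulL (by fun_prop) (CC.prod hφc.sq cgG)
    have eb : ∫ x, (1 + L.K * nx x) * (gC (fun z : (P → ℝ) × (Q → ℝ) => φ z.1 * G z.2) x +
        gA (fun z : (P → ℝ) × (Q → ℝ) => φ z.1 * G z.2) x) =
        (∫ x : (P → ℝ) × (Q → ℝ), (1 + L.K * nx x) * (g2 φ x.1 * G x.2 ^ 2)) +
        ∫ x : (P → ℝ) × (Q → ℝ), (1 + L.K * nx x) * (φ x.1 ^ 2 * g2 G x.2) := by
      rw [← integral_add c1.int c2.int]
      refine integral_congr_ae (Eventually.of_forall fun x => ?_)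
      simp only
      rw [gC_prod hφ1 hG1, gA_prod hφ1 hG1]
      ring
    have hts' : ∀ x, f x ≠ 0 → nx x < 3 / 4 * δ ^ 2 := by
      intro x hx
      rw [htr] at hx
      have e1 := right_ne_zero_of_mul hx
      exact hnx' x.1 x.2 (left_ne_zero_of_mul e1) (right_ne_zero_of_mul e1)
    have hδ1 : δ ≤ 1 := hδr.trans hb.r2
    have hδ2 : δ ^ 2 ≤ 1 := pow_le_one₀ hδ.le hδ1
    have hKΛ : L.K ≤ Λ := hb.K
    have hFd : ContDiff ℝ 1 (fun z : (P → ℝ) × (Q → ℝ) => φ z.1 * G z.2) :=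
      (hφ1.comp contDiff_fst).mul (hG1.comp contDiff_snd)
    have cF : CC (fun x : (P → ℝ) × (Q → ℝ) => (φ x.1 * G x.2) ^ 2) := (CC.prod hφc hGc).sq
    have hjr : g ^ 2 / 2 * (∫ x, (1 + L.K * nx x) * (gC f x + gA f x) * L.J x) ≤
        (1 + g) * (g ^ 2 / 2 * (∫ x, (1 + L.K * nx x) * (gC (fun z : (P → ℝ) × (Q → ℝ) => φ z.1 * G z.2) x +
        gA (fun z : (P → ℝ) × (Q → ℝ) => φ z.1 * G z.2) x))) + Λ ^ 3 * g * (Ψ * ∫ a, G a ^ 2) := by
      have e5 : ∫ x : (P → ℝ) × (Q → ℝ), (φ x.1 * G x.2) ^ 2 = Ψ * ∫ a, G a ^ 2 := by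
        rw [← eΨ, ← prod_int (fun C => φ C ^ 2) (fun a => G a ^ 2)]
        refine integral_congr_ae (Eventually.of_forall fun x => ?_)
        simp only
        ring
      have cK : CC (fun x => (1 + L.K * nx x) * (gC (fun z : (P → ℝ) × (Q → ℝ) => φ z.1 * G z.2) x +
          gA (fun z : (P → ℝ) × (Q → ℝ) => φ z.1 * G z.2) x)) := by
        have hFs : HasCompactSupport (fun z : (P → ℝ) × (Q → ℝ) => φ z.1 * G z.2) := (CC.prod hφc hGc).supp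
        exact CC.mulL (by fun_prop) ((gC_cc hFd hFs).add (gA_cc hFd hFs))
      rw [← e5, ← integral_const_mul, ← integral_const_mul, ← integral_const_mul, ← integral_const_mul,
        ← integral_add ((cK.constL _).constL _).int (cF.constL _).int]
      refine integral_mono (b1.constL _).int (((cK.constL _).constL _).add (cF.constL _)).int fun x => ?_
      show g ^ 2 / 2 * ((1 + L.K * nx x) * (gC f x + gA f x) * L.J x) ≤
        (1 + g) * (g ^ 2 / 2 * ((1 + L.K * nx x) * (gC (fun z : (P → ℝ) × (Q → ℝ) => φ z.1 * G z.2) x +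
          gA (fun z : (P → ℝ) × (Q → ℝ) => φ z.1 * G z.2) x))) + Λ ^ 3 * g * (φ x.1 * G x.2) ^ 2
      have hnx0 := nx_nonneg x
      rw [← hff]
      have hFx : φ x.1 * G x.2 = ph L f x := (congrFun hff x).symm
      rw [hFx]
      have hgC := gC_nonneg (ph L f) x
      have hgA := gA_nonneg (ph L f) x
      by_cases hx : nx x ≤ 3 / 4 * δ ^ 2
      · have hδp : 0 < δ ^ 2 := by positivity
        have hxr : nx x < L.r ^ 2 := by linarith
        have h5 := up_pt L hfd hg (hb.J x hxr)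
        have h6 : 0 ≤ g ^ 2 / 2 * (1 + L.K * nx x) := by positivity
        have h7 := mul_le_mul_of_nonneg_left h5 h6
        have h8 : L.K * nx x ≤ Λ := by
          calc L.K * nx x ≤ Λ * 1 := mul_le_mul hKΛ (by linarith) hnx0 (by linarith)
            _ = Λ := mul_one _
        have h9 : g ^ 2 / 2 * (1 + L.K * nx x) * ((1 + 1 / g) * (Λ ^ 2 / 4) * ph L f x ^ 2) ≤
            Λ ^ 3 * g * ph L f x ^ 2 := by
          have e6 : g ^ 2 / 2 * (1 + L.K * nx x) * ((1 + 1 / g) * (Λ ^ 2 / 4) * ph L f x ^ 2) =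
              ((g ^ 2 + g) / 2) * ((1 + L.K * nx x) / 4) * (Λ ^ 2 * ph L f x ^ 2) := by
            field_simp
          have e7 : Λ ^ 3 * g * ph L f x ^ 2 = g * Λ * (Λ ^ 2 * ph L f x ^ 2) := by ring
          rw [e6, e7]
          refine mul_le_mul_of_nonneg_right ?_ (by positivity)
          refine mul_le_mul (by linarith) (by linarith) (by positivity) hg.le
        calc g ^ 2 / 2 * ((1 + L.K * nx x) * (gC f x + gA f x) * L.J x) =
            g ^ 2 / 2 * (1 + L.K * nx x) * ((gC f x + gA f x) * L.J x) := by ring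
          _ ≤ g ^ 2 / 2 * (1 + L.K * nx x) * ((1 + g) * (gC (ph L f) x + gA (ph L f) x) +
              (1 + 1 / g) * (Λ ^ 2 / 4) * ph L f x ^ 2) := h7
          _ = (1 + g) * (g ^ 2 / 2 * ((1 + L.K * nx x) * (gC (ph L f) x + gA (ph L f) x))) +
              g ^ 2 / 2 * (1 + L.K * nx x) * ((1 + 1 / g) * (Λ ^ 2 / 4) * ph L f x ^ 2) := by ring
          _ ≤ _ := by linarith
      · have hdf : fderiv ℝ f x = 0 := by
          by_contra h
          exact hx (fd_nx hts' h)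
        have z3 : gC f x = 0 := by unfold gC; rw [hdf]; simp
        have z4 : gA f x = 0 := by unfold gA; rw [hdf]; simp
        rw [z3, z4]
        have h5 : 0 ≤ (1 + g) * (g ^ 2 / 2 * ((1 + L.K * nx x) * (gC (ph L f) x + gA (ph L f) x))) := by
          positivity
        have h6 : 0 ≤ Λ ^ 3 * g * ph L f x ^ 2 := by positivity
        simp only [add_zero, mul_zero, zero_mul]
        linarith
    rw [eb] at hjr
    have t1 := T1_le hKL hφ1 hφsc hφs hGc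
    have t2 := T2_le hKL hφc hφs hG1 G2
    have t3 := T3_le L hKA0 hKA hs hR hV0 hV hφc hφs hGc (fun C a hC ha => ((hnx C a hC ha).le.trans hδr2)) hg hKG0
      G4 G8 G9 G10 G11
    rw [ea]
    rw [eΨ] at t2 t3
    rw [eIv] at t3
    set m0 : ℝ := ∫ a, G a ^ 2 with hm0def
    set m2 : ℝ := ∫ a, n2 a * G a ^ 2 with hm2def
    set e2 : ℝ := ∫ a, g2 G a with he2def
    set e4 : ℝ := ∫ a, n2 a * g2 G a with he4def
    set I1 : ℝ := ∫ C, g2 φ C with hI1def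
    set q : ℝ := ∫ a, (∑ i, L.om i ^ 2 * a i ^ 2) * G a ^ 2 with hqdef
    set W : ℝ := ∫ x : (P → ℝ) × (Q → ℝ), L.w x * (φ x.1 ^ 2 * G x.2 ^ 2) with hW
    set A1 : ℝ := ∫ x : (P → ℝ) × (Q → ℝ), (1 + L.K * nx x) * (g2 φ x.1 * G x.2 ^ 2) with hA1
    set A2 : ℝ := ∫ x : (P → ℝ) × (Q → ℝ), (1 + L.K * nx x) * (φ x.1 ^ 2 * g2 G x.2) with hA2
    set A0 : ℝ := ∫ x, (1 + L.K * nx x) * (gC f x + gA f x) * L.J x with hA0
    have hI10 : 0 ≤ I1 := integral_nonneg fun C => g2_nonneg _ _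
    have he20 : 0 ≤ e2 := integral_nonneg fun C => g2_nonneg _ _
    have hm20 : 0 ≤ m2 := integral_nonneg fun a => mul_nonneg (n2_nonneg _) (sq_nonneg _)
    -- the oscillator
    have osc : g ^ 2 / 2 * e2 + 1 / (2 * g ^ 2) * q ≤ L.e0 + KG * g ^ 2 := by
      have e1 : ∫ a, (g ^ 2 / 2 * g2 G a + 1 / (2 * g ^ 2) * (∑ i, L.om i ^ 2 * a i ^ 2) * G a ^ 2) =
          g ^ 2 / 2 * e2 + 1 / (2 * g ^ 2) * q := by
        have c3 : CC (fun a : Q → ℝ => (∑ i, L.om i ^ 2 * a i ^ 2) * G a ^ 2) := CC.mulL (by fun_prop) hGc.sq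
        rw [he2def, hqdef, ← integral_const_mul, ← integral_const_mul, ← integral_add (cgG.int.const_mul _) (c3.int.const_mul _)]
        refine integral_congr_ae (Eventually.of_forall fun x => ?_)
        simp only
        ring
      rw [← e1]
      exact G5
    -- the pieces
    have hqf : qf L.v ψ = 1 / 2 * D + Iv := by
      unfold qf
      have c3 : CC (fun C : P → ℝ => L.v C * ψ C ^ 2) := CC.mulL L.cont hψc.sq
      have c4 := g2_cc hψ1 hψsc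
      rw [hD, hIv, ← integral_const_mul, ← integral_add (c4.int.const_mul _) c3.int]
    have hsum : ∫ C, (ψ C ^ 2 + g2 ψ C) = Ψ + D := integral_add hψc.sq.int (g2_cc hψ1 hψsc).int
    rw [hqf, hsum]
    have p1 : g ^ 2 / 2 * A1 ≤ E / 2 * D + k1 * g * D := by
      have q1 : (1 + L.K * (s ^ 2 * R ^ 2)) * (I1 * m0) ≤ (1 + L.K * (s ^ 2 * R ^ 2)) * I1 := by
        refine mul_le_mul_of_nonneg_left ?_ (by positivity)
        calc I1 * m0 ≤ I1 * 1 := mul_le_mul_of_nonneg_left G4 hI10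
          _ = I1 := mul_one _
      have q2 : L.K * (I1 * m2) ≤ L.K * (I1 * (KG * g ^ 2)) :=
        mul_le_mul_of_nonneg_left (mul_le_mul_of_nonneg_left G8 hI10) hKL
      have q3 : A1 ≤ (1 + L.K * (s ^ 2 * R ^ 2) + L.K * KG * g ^ 2) * I1 := by
        refine t1.trans ((add_le_add q1 q2).trans (le_of_eq ?_))
        ring
      have q4 : g ^ 2 / 2 * A1 ≤ g ^ 2 / 2 * ((1 + L.K * (s ^ 2 * R ^ 2) + L.K * KG * g ^ 2) * I1) :=
        mul_le_mul_of_nonneg_left q3 (by positivity)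
      have q5 : g ^ 2 / 2 * ((1 + L.K * (s ^ 2 * R ^ 2) + L.K * KG * g ^ 2) * I1) =
          E / 2 * D + (L.K * R ^ 2 / 2 * (E * s ^ 2) + L.K * KG / 2 * (E * g ^ 2)) * D := by
        calc g ^ 2 / 2 * ((1 + L.K * (s ^ 2 * R ^ 2) + L.K * KG * g ^ 2) * I1) =
            1 / 2 * (1 + L.K * (s ^ 2 * R ^ 2) + L.K * KG * g ^ 2) * (g ^ 2 * I1) := by ring
          _ = 1 / 2 * (1 + L.K * (s ^ 2 * R ^ 2) + L.K * KG * g ^ 2) * (E * D) := by rw [eD]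
          _ = _ := by ring
      rw [q5, hE2] at q4
      have q6 : L.K * R ^ 2 / 2 * g ^ 2 + L.K * KG / 2 * (E * g ^ 2) ≤ k1 * g := by
        have r1 : g ^ 2 ≤ g := hgq
        have r2 : L.K * R ^ 2 / 2 * g ^ 2 ≤ L.K * R ^ 2 / 2 * g := mul_le_mul_of_nonneg_left r1 (by positivity)
        have r3 : E * g ^ 2 ≤ F * g := mul_le_mul hEF r1 (by positivity) hF0.le
        have r4 : L.K * KG / 2 * (E * g ^ 2) ≤ L.K * KG / 2 * (F * g) := mul_le_mul_of_nonneg_left r3 (by positivity)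
        have r5 : k1 * g = L.K * R ^ 2 / 2 * g + L.K * KG / 2 * (F * g) := by rw [hk1]; ring
        linarith
      have q7 := mul_le_mul_of_nonneg_right q6 hD0
      linarith
    have p2 : g ^ 2 / 2 * A2 ≤ g ^ 2 / 2 * (Ψ * e2) + k2a * g * Ψ := by
      rw [hk2a]
      have q1 : L.K * (s ^ 2 * R ^ 2) * (Ψ * e2) ≤ L.K * (s ^ 2 * R ^ 2) * (Ψ * (KG / g ^ 2)) :=
        mul_le_mul_of_nonneg_left (mul_le_mul_of_nonneg_left G6 hΨ0) (by positivity)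
      have q2 : L.K * (Ψ * e4) ≤ L.K * (Ψ * KG) := mul_le_mul_of_nonneg_left (mul_le_mul_of_nonneg_left G7 hΨ0) hKL
      have q3 : A2 ≤ Ψ * e2 + L.K * (s ^ 2 * R ^ 2) * (Ψ * (KG / g ^ 2)) + L.K * (Ψ * KG) := by linarith
      have q4 := mul_le_mul_of_nonneg_left q3 (show 0 ≤ g ^ 2 / 2 by positivity)
      have q5 : g ^ 2 / 2 * (Ψ * e2 + L.K * (s ^ 2 * R ^ 2) * (Ψ * (KG / g ^ 2)) + L.K * (Ψ * KG)) =
          g ^ 2 / 2 * (Ψ * e2) + (L.K * KG * R ^ 2 / 2 * s ^ 2 + L.K * KG / 2 * g ^ 2) * Ψ := by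
        field_simp
        ring
      rw [q5] at q4
      have q6 : L.K * KG * R ^ 2 / 2 * s ^ 2 + L.K * KG / 2 * g ^ 2 ≤ (L.K * KG * R ^ 2 * B / 2 + L.K * KG / 2) * g := by
        have r1 : g ^ 2 ≤ g := hgq
        have r2 : L.K * KG * R ^ 2 / 2 * s ^ 2 ≤ L.K * KG * R ^ 2 / 2 * (g * B) := mul_le_mul_of_nonneg_left hs2 (by positivity)
        have r3 : L.K * KG / 2 * g ^ 2 ≤ L.K * KG / 2 * g := mul_le_mul_of_nonneg_left r1 (by positivity)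
        have r4 : (L.K * KG * R ^ 2 * B / 2 + L.K * KG / 2) * g = L.K * KG * R ^ 2 / 2 * (g * B) + L.K * KG / 2 * g := by ring
        linarith
      have q7 := mul_le_mul_of_nonneg_right q6 hΨ0
      linarith
    have p3 : 1 / g ^ 2 * W ≤ E * Iv + 1 / (2 * g ^ 2) * q * Ψ + k2b * g * Ψ := by
      rw [hk2b]
      have q1 := mul_le_mul_of_nonneg_left t3 (show 0 ≤ 1 / g ^ 2 by positivity)
      have hs5 : s ^ 5 / g ^ 2 = s * E / L.c4 := by
        rw [div_eq_div_iff (by positivity) (by positivity)]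
        calc s ^ 5 * L.c4 = s * (L.c4 * s ^ 4) := by ring
          _ = s * E * g ^ 2 := by rw [hE4]; ring
      have q2 : 1 / g ^ 2 * (L.c4 * (s ^ 4 * Iv) + (1 / 2 * q +
          (1 / 2 * (Fintype.card Q * (KA * (s * R) * (KG * g ^ 4))) + L.K * (s * R * (s ^ 4 * V) + s ^ 2 * R ^ 2 * (KG * g ^ 2) +
          KG * g ^ 3))) * Ψ) = E * Iv + 1 / (2 * g ^ 2) * q * Ψ + (1 / 2 * Fintype.card Q * KA * R * KG * (s * g ^ 2) +
            L.K * (R * V * (s ^ 5 / g ^ 2) + R ^ 2 * KG * s ^ 2 + KG * g)) * Ψ := by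
        have r1 : 1 / g ^ 2 * (L.c4 * (s ^ 4 * Iv)) = E * Iv := by
          calc 1 / g ^ 2 * (L.c4 * (s ^ 4 * Iv)) = 1 / g ^ 2 * ((L.c4 * s ^ 4) * Iv) := by ring
            _ = 1 / g ^ 2 * (E * g ^ 2 * Iv) := by rw [hE4]
            _ = E * Iv := by field_simp
        rw [mul_add, r1]
        field_simp
        ring
      rw [q2, hs5] at q1
      have r1 : g ^ 2 ≤ g := hgq
      have q3 : s * g ^ 2 ≤ B * g := mul_le_mul hs1 r1 (by positivity) hB0.le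
      have q4 : s * E / L.c4 ≤ g * F / L.c4 := div_le_div_of_nonneg_right hsE hc4.le
      have q5 : 1 / 2 * Fintype.card Q * KA * R * KG * (s * g ^ 2) +
            L.K * (R * V * (s * E / L.c4) + R ^ 2 * KG * s ^ 2 + KG * g) ≤
          (1 / 2 * Fintype.card Q * KA * R * KG * B + L.K * (R * V * F / L.c4 + R ^ 2 * KG * B + KG)) * g := by
        have r2 : 1 / 2 * Fintype.card Q * KA * R * KG * (s * g ^ 2) ≤ 1 / 2 * Fintype.card Q * KA * R * KG * (B * g) :=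
          mul_le_mul_of_nonneg_left q3 (by positivity)
        have r3 : R * V * (s * E / L.c4) ≤ R * V * (g * F / L.c4) := mul_le_mul_of_nonneg_left q4 (by positivity)
        have r4 : R ^ 2 * KG * s ^ 2 ≤ R ^ 2 * KG * (g * B) := mul_le_mul_of_nonneg_left hs2 (by positivity)
        have r5 : L.K * (R * V * (s * E / L.c4) + R ^ 2 * KG * s ^ 2 + KG * g) ≤
            L.K * (R * V * (g * F / L.c4) + R ^ 2 * KG * (g * B) + KG * g) := mul_le_mul_of_nonneg_left (by linarith) hKL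
        have r6 : (1 / 2 * Fintype.card Q * KA * R * KG * B + L.K * (R * V * F / L.c4 + R ^ 2 * KG * B + KG)) * g =
            1 / 2 * Fintype.card Q * KA * R * KG * (B * g) +
            L.K * (R * V * (g * F / L.c4) + R ^ 2 * KG * (g * B) + KG * g) := by ring
        linarith
      have q6 := mul_le_mul_of_nonneg_right q5 hΨ0
      linarith
    have p4 : g ^ 2 / 2 * A0 ≤ g ^ 2 / 2 * A1 + g ^ 2 / 2 * A2 + g * (g ^ 2 / 2 * A1 + g ^ 2 / 2 * A2) +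
        Λ ^ 3 * g * Ψ := by
      have q2 : Λ ^ 3 * g * (Ψ * m0) ≤ Λ ^ 3 * g * Ψ := by
        refine mul_le_mul_of_nonneg_left ?_ (by positivity)
        calc Ψ * m0 ≤ Ψ * 1 := mul_le_mul_of_nonneg_left G4 hΨ0
          _ = Ψ := mul_one _
      have q3 : (1 + g) * (g ^ 2 / 2 * (A1 + A2)) =
          g ^ 2 / 2 * A1 + g ^ 2 / 2 * A2 + g * (g ^ 2 / 2 * A1 + g ^ 2 / 2 * A2) := by ring
      linarith
    have p4a : g * (g ^ 2 / 2 * A1) ≤ (F / 2 + k1) * g * D := by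
      have r1 : g ^ 2 / 2 * A1 ≤ F / 2 * D + k1 * D := by
        have r2 : E / 2 * D ≤ F / 2 * D := mul_le_mul_of_nonneg_right (by linarith) hD0
        have r3 : k1 * g * D ≤ k1 * D := by
          refine mul_le_mul_of_nonneg_right ?_ hD0
          calc k1 * g ≤ k1 * 1 := mul_le_mul_of_nonneg_left hg1 hk10
            _ = k1 := mul_one _
        linarith
      calc g * (g ^ 2 / 2 * A1) ≤ g * (F / 2 * D + k1 * D) := mul_le_mul_of_nonneg_left r1 hg.le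
        _ = _ := by ring
    have p4b : g * (g ^ 2 / 2 * A2) ≤ (KG / 2 + k2a) * g * Ψ := by
      have r1 : g ^ 2 / 2 * A2 ≤ KG / 2 * Ψ + k2a * Ψ := by
        have r2 : g ^ 2 / 2 * (Ψ * e2) ≤ KG / 2 * Ψ := by
          calc g ^ 2 / 2 * (Ψ * e2) ≤ g ^ 2 / 2 * (Ψ * (KG / g ^ 2)) :=
                mul_le_mul_of_nonneg_left (mul_le_mul_of_nonneg_left G6 hΨ0) (by positivity)
            _ = KG / 2 * Ψ := by field_simp
        have r3 : k2a * g * Ψ ≤ k2a * Ψ := by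
          refine mul_le_mul_of_nonneg_right ?_ hΨ0
          calc k2a * g ≤ k2a * 1 := mul_le_mul_of_nonneg_left hg1 hk2a0
            _ = k2a := mul_one _
        linarith
      calc g * (g ^ 2 / 2 * A2) ≤ g * (KG / 2 * Ψ + k2a * Ψ) := mul_le_mul_of_nonneg_left r1 hg.le
        _ = _ := by ring
    have p5 : (g ^ 2 / 2 * e2 + 1 / (2 * g ^ 2) * q) * Ψ ≤ L.e0 * Ψ + KG * g * Ψ := by
      have r1 : g ^ 2 ≤ g := hgq
      have r2 : KG * g ^ 2 ≤ KG * g := mul_le_mul_of_nonneg_left r1 hKG0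
      have r3 := mul_le_mul_of_nonneg_right (osc.trans (add_le_add_right r2 _)) hΨ0
      linarith
    have p6 : kΨ * g * Ψ = k2a * g * Ψ + k2b * g * Ψ + KG * g * Ψ + Λ ^ 3 * g * Ψ + (KG / 2 + k2a) * g * Ψ := by
      rw [hkΨ]; ring
    have p6' : kD * g * D = k1 * g * D + (F / 2 + k1) * g * D := by
      rw [hkD]; ring
    have p7 : kD * g * D + kΨ * g * Ψ ≤ (kD + kΨ) * g * (Ψ + D) := by
      have r1 : 0 ≤ kD * g * Ψ := by positivity
      have r2 : 0 ≤ kΨ * g * D := by positivity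
      linarith
    have p8 : E * (1 / 2 * D + Iv) = E / 2 * D + E * Iv := by ring
    have p10 : (g ^ 2 / 2 * e2 + 1 / (2 * g ^ 2) * q) * Ψ = g ^ 2 / 2 * (Ψ * e2) + 1 / (2 * g ^ 2) * q * Ψ := by ring
    have p11 : g * (g ^ 2 / 2 * A1 + g ^ 2 / 2 * A2) = g * (g ^ 2 / 2 * A1) + g * (g ^ 2 / 2 * A2) := by ring
    linarith

end


theorem v_bd' {P : Type} [Fintype P] {v : (P → ℝ) → ℝ} (hv : Continuous v) (R : ℝ) :
    ∃ V : ℝ, 0 ≤ V ∧ ∀ y, n2 y ≤ R ^ 2 → v y ≤ V := by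
  have h1 : IsCompact (Metric.closedBall (0 : P → ℝ) (Real.sqrt (R ^ 2))) := isCompact_closedBall _ _
  obtain ⟨V, hV⟩ := h1.exists_bound_of_continuousOn hv.continuousOn
  refine ⟨max V 0, le_max_right _ _, fun y hy => ?_⟩
  have h2 : y ∈ Metric.closedBall (0 : P → ℝ) (Real.sqrt (R ^ 2)) := by
    rw [mem_closedBall_zero_iff, pi_norm_le_iff_of_nonneg (Real.sqrt_nonneg _)]
    intro i
    rw [Real.norm_eq_abs]
    exact (abs_le_nr y i).trans (Real.sqrt_le_sqrt hy)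
  have h3 := hV y h2
  rw [Real.norm_eq_abs] at h3
  exact ((le_abs_self _).trans h3).trans (le_max_left _ _)

/-- the constants are polynomial -/
theorem kk_le {P Q : Type} [Fintype P] [DecidableEq P] [Fintype Q] [DecidableEq Q] (L : Loc P Q)
    {Λ R V KG : ℝ} (hb : Bd L Λ) (hR : 0 < R) (hV : 0 ≤ V) (hKG : 1 ≤ KG) :
    kk L Λ R V KG ≤ (20 + 10 * R + 10 * R ^ 2 + 10 * (R * V)) * KG * Λ ^ 3 := by
  have hΛ := hb.one
  have hc4 := L.c4pos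
  have hK0 := L.K0
  have hK := hb.K
  have hF : 1 + L.c4 ≤ 2 * Λ := by linarith [hb.c42]
  have hB : 1 + 1 / L.c4 ≤ 2 * Λ := by
    have h1 : 1 / L.c4 ≤ Λ := by
      rw [div_le_iff₀ hc4]
      have h2 := mul_le_mul_of_nonneg_left hb.c41 (show 0 ≤ Λ by linarith)
      rwa [mul_inv_cancel₀ (by linarith)] at h2
    linarith
  have hinv : 1 / L.c4 ≤ Λ := by
    rw [div_le_iff₀ hc4]
    have h2 := mul_le_mul_of_nonneg_left hb.c41 (show 0 ≤ Λ by linarith)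
    rwa [mul_inv_cancel₀ (by linarith)] at h2
  have hcard := hb.cardQ
  have hcard0 : (0 : ℝ) ≤ Fintype.card Q := Nat.cast_nonneg _
  have hF0 : 0 < 1 + L.c4 := by positivity
  have hB0 : 0 < 1 + 1 / L.c4 := by positivity
  have hΛ2 : Λ ≤ Λ ^ 2 := by nlinarith
  have hΛ3 : Λ ^ 2 ≤ Λ ^ 3 := by
    have : 0 ≤ Λ ^ 2 := by positivity
    calc Λ ^ 2 = Λ ^ 2 * 1 := (mul_one _).symm
      _ ≤ Λ ^ 2 * Λ := mul_le_mul_of_nonneg_left hΛ this
      _ = Λ ^ 3 := by ring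
  have hΛ13 : Λ ≤ Λ ^ 3 := hΛ2.trans hΛ3
  have h13 : 1 ≤ Λ ^ 3 := hΛ.trans hΛ13
  have hX0 : 0 ≤ Λ ^ 3 := by positivity
  -- first constant
  have m1 : L.K * R ^ 2 / 2 ≤ R ^ 2 * KG * Λ ^ 3 := by
    have e1 : L.K * R ^ 2 ≤ Λ ^ 3 * R ^ 2 := mul_le_mul_of_nonneg_right (hK.trans hΛ13) (by positivity)
    have e2 : Λ ^ 3 * R ^ 2 ≤ R ^ 2 * KG * Λ ^ 3 := by
      have : R ^ 2 * KG * Λ ^ 3 = (Λ ^ 3 * R ^ 2) * KG := by ring
      rw [this]
      exact le_mul_of_one_le_right (by positivity) hKG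
    have e3 : 0 ≤ L.K * R ^ 2 := by positivity
    linarith
  have m2 : (1 + L.c4) * L.K * KG / 2 ≤ KG * Λ ^ 3 := by
    have e1 : (1 + L.c4) * L.K ≤ 2 * Λ * Λ := mul_le_mul hF hK hK0 (by positivity)
    have e2 : (1 + L.c4) * L.K * KG ≤ 2 * Λ * Λ * KG := mul_le_mul_of_nonneg_right e1 (by linarith)
    have e3 : 2 * Λ * Λ * KG ≤ 2 * (KG * Λ ^ 3) := by
      have : 2 * Λ * Λ * KG = 2 * (KG * Λ ^ 2) := by ring
      rw [this]
      have := mul_le_mul_of_nonneg_left hΛ3 (show 0 ≤ KG by linarith)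
      linarith
    linarith
  have b1 : kk1 L R KG ≤ (1 + R ^ 2) * KG * Λ ^ 3 := by
    unfold kk1
    linarith
  -- second constant
  have m3 : L.K * KG * R ^ 2 * (1 + 1 / L.c4) / 2 ≤ R ^ 2 * KG * Λ ^ 3 := by
    have e1 : L.K * (1 + 1 / L.c4) ≤ Λ * (2 * Λ) := mul_le_mul hK hB hB0.le (by linarith)
    have e2 : L.K * (1 + 1 / L.c4) * (KG * R ^ 2) ≤ Λ * (2 * Λ) * (KG * R ^ 2) :=
      mul_le_mul_of_nonneg_right e1 (by positivity)
    have e3 := mul_le_mul_of_nonneg_left hΛ3 (show 0 ≤ R ^ 2 * KG by positivity)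
    linarith
  have m4 : L.K * KG / 2 ≤ KG * Λ ^ 3 := by
    have e1 : L.K * KG ≤ Λ ^ 3 * KG := mul_le_mul_of_nonneg_right (hK.trans hΛ13) (by linarith)
    have e2 : 0 ≤ L.K * KG := by positivity
    linarith
  have b2 : kk2 L R KG ≤ (1 + R ^ 2) * KG * Λ ^ 3 := by
    unfold kk2
    linarith
  -- third constant
  have m5 : 1 / 2 * Fintype.card Q * Λ * R * KG * (1 + 1 / L.c4) ≤ R * KG * Λ ^ 3 := by
    have e1 : (Fintype.card Q : ℝ) * (1 + 1 / L.c4) ≤ Λ * (2 * Λ) :=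
      mul_le_mul hcard hB hB0.le (by linarith)
    have e2 : (Fintype.card Q : ℝ) * (1 + 1 / L.c4) * (Λ * R * KG) ≤ Λ * (2 * Λ) * (Λ * R * KG) :=
      mul_le_mul_of_nonneg_right e1 (by positivity)
    linarith
  have m6 : L.K * (R * V * (1 + L.c4) / L.c4) ≤ 2 * (R * V) * Λ ^ 3 := by
    have e1 : (1 + L.c4) * (1 / L.c4) ≤ 2 * Λ * Λ := mul_le_mul hF hinv (by positivity) (by positivity)
    have e2 : L.K * ((1 + L.c4) * (1 / L.c4)) ≤ Λ * (2 * Λ * Λ) :=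
      mul_le_mul hK e1 (by positivity) (by linarith)
    have e3 := mul_le_mul_of_nonneg_right e2 (show 0 ≤ R * V by positivity)
    have e4 : L.K * (R * V * (1 + L.c4) / L.c4) = L.K * ((1 + L.c4) * (1 / L.c4)) * (R * V) := by
      field_simp
    rw [e4]
    linarith
  have m7 : L.K * (R ^ 2 * KG * (1 + 1 / L.c4)) ≤ 2 * R ^ 2 * KG * Λ ^ 3 := by
    have e1 : L.K * (1 + 1 / L.c4) ≤ Λ * (2 * Λ) := mul_le_mul hK hB hB0.le (by linarith)
    have e2 : L.K * (1 + 1 / L.c4) * (KG * R ^ 2) ≤ Λ * (2 * Λ) * (KG * R ^ 2) :=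
      mul_le_mul_of_nonneg_right e1 (by positivity)
    have e3 := mul_le_mul_of_nonneg_left hΛ3 (show 0 ≤ R ^ 2 * KG by positivity)
    linarith
  have m8 : L.K * KG ≤ KG * Λ ^ 3 := by
    have e1 : L.K * KG ≤ Λ ^ 3 * KG := mul_le_mul_of_nonneg_right (hK.trans hΛ13) (by linarith)
    linarith
  have m9 : 2 * (R * V) * Λ ^ 3 ≤ 2 * (R * V) * KG * Λ ^ 3 := by
    have e1 : 2 * (R * V) * KG * Λ ^ 3 = (2 * (R * V) * Λ ^ 3) * KG := by ring
    rw [e1]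
    exact le_mul_of_one_le_right (by positivity) hKG
  have b3 : kk3 L Λ R V KG ≤ (1 + R + 2 * R ^ 2 + 2 * (R * V)) * KG * Λ ^ 3 := by
    have e1 : kk3 L Λ R V KG = 1 / 2 * Fintype.card Q * Λ * R * KG * (1 + 1 / L.c4) +
        L.K * (R * V * (1 + L.c4) / L.c4) + L.K * (R ^ 2 * KG * (1 + 1 / L.c4)) + L.K * KG := by
      unfold kk3
      ring
    rw [e1]
    linarith
  -- the rest
  have m10 : (1 + L.c4) / 2 ≤ KG * Λ ^ 3 := by
    have e1 : Λ ^ 3 ≤ KG * Λ ^ 3 := le_mul_of_one_le_left hX0 hKG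
    linarith
  have m11 : KG ≤ KG * Λ ^ 3 := le_mul_of_one_le_right (by linarith) h13
  have m12 : Λ ^ 3 ≤ KG * Λ ^ 3 := le_mul_of_one_le_left hX0 hKG
  have m13 : 0 ≤ KG * Λ ^ 3 := by positivity
  have m14 : 0 ≤ R * KG * Λ ^ 3 := by positivity
  have m15 : 0 ≤ R ^ 2 * KG * Λ ^ 3 := by positivity
  have m16 : 0 ≤ (R * V) * KG * Λ ^ 3 := by positivity
  unfold kk
  linarith

theorem t_UPBU (h1 : S_GMU) : S_UPBU := by
  intro P _ _
  obtain ⟨pG, CG, hCG, hGM⟩ := h1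
  refine ⟨pG + 3, fun v R hv hR => ?_⟩
  obtain ⟨V, hV0, hV⟩ := v_bd' hv R
  set c : ℝ := 20 + 10 * R + 10 * R ^ 2 + 10 * (R * V) with hc
  have hc1 : 20 ≤ c := by
    have : 0 ≤ 10 * R + 10 * R ^ 2 + 10 * (R * V) := by positivity
    linarith
  have hcR : 4 * R ^ 2 ≤ c := by
    have : 0 ≤ 20 + 10 * R + 6 * R ^ 2 + 10 * (R * V) := by positivity
    linarith
  have hC1 : 1 ≤ c * CG := by nlinarith
  refine ⟨c * CG, hC1, ?_⟩
  intro Q _ _ L δ Λ M hLv hb hδΛ hδr hM g hg hgM ψ hψ hψs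
  have hΛ := hb.one
  have hΛ0 : 0 < Λ := by linarith
  have hδ : 0 < δ := lt_of_lt_of_le (by positivity) hδΛ
  have hδ1 : δ ≤ 1 := hδr.trans hb.r2
  set KG : ℝ := CG * Λ ^ pG with hKG
  have hΛp : 1 ≤ Λ ^ pG := one_le_pow₀ hΛ
  have hKG1 : 1 ≤ KG := by rw [hKG]; nlinarith
  have hMe : M = c * KG * Λ ^ 3 := by rw [hM, hKG, pow_add]; ring
  have hΛ31 : 1 ≤ Λ ^ 3 := one_le_pow₀ hΛ
  have hKM : KG ≤ M := by
    rw [hMe]
    have e1 : KG ≤ c * KG := by nlinarith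
    have e2 : c * KG ≤ c * KG * Λ ^ 3 := le_mul_of_one_le_right (by positivity) hΛ31
    linarith
  have hM0 : 0 < M := by linarith
  have hM1 : 1 ≤ M := by linarith
  have hg1 : g ≤ 1 := hgM.trans (inv_le_one_of_one_le₀ hM1)
  have hgG : g ≤ KG⁻¹ := hgM.trans (by rw [inv_le_inv₀ hM0 (by linarith)]; exact hKM)
  have hc4 := L.c4pos
  have hinv : 1 / L.c4 ≤ Λ := by
    rw [div_le_iff₀ hc4]
    have h2 := mul_le_mul_of_nonneg_left hb.c41 (show 0 ≤ Λ by linarith)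
    rwa [mul_inv_cancel₀ (by linarith)] at h2
  have hg2 : g * (2 * R ^ 2 * (1 + 1 / L.c4)) ≤ δ ^ 2 := by
    have e1 : 1 + 1 / L.c4 ≤ 2 * Λ := by linarith
    have e2 : 2 * R ^ 2 * (1 + 1 / L.c4) ≤ 4 * R ^ 2 * Λ := by
      have := mul_le_mul_of_nonneg_left e1 (show 0 ≤ 2 * R ^ 2 by positivity)
      linarith
    have e3 : 4 * R ^ 2 * Λ * Λ ^ 2 ≤ M := by
      have e4 : M = c * Λ ^ 3 * KG := by rw [hMe]; ring
      have e5 : c * Λ ^ 3 ≤ c * Λ ^ 3 * KG := le_mul_of_one_le_right (by positivity) hKG1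
      have e6 : 4 * R ^ 2 * Λ ^ 3 ≤ c * Λ ^ 3 := mul_le_mul_of_nonneg_right hcR (by positivity)
      have e7 : 4 * R ^ 2 * Λ * Λ ^ 2 = 4 * R ^ 2 * Λ ^ 3 := by ring
      rw [e7, e4]
      linarith
    have e8 : g * (4 * R ^ 2 * Λ) ≤ Λ⁻¹ ^ 2 := by
      have e9 : g * M ≤ 1 := by
        have := mul_le_mul_of_nonneg_right hgM hM0.le
        rwa [inv_mul_cancel₀ hM0.ne'] at this
      have e10 : g * (4 * R ^ 2 * Λ * Λ ^ 2) ≤ 1 := (mul_le_mul_of_nonneg_left e3 hg.le).trans e9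
      rw [inv_pow, ← one_div, le_div_iff₀ (by positivity)]
      calc g * (4 * R ^ 2 * Λ) * Λ ^ 2 = g * (4 * R ^ 2 * Λ * Λ ^ 2) := by ring
        _ ≤ 1 := e10
    calc g * (2 * R ^ 2 * (1 + 1 / L.c4)) ≤ g * (4 * R ^ 2 * Λ) := mul_le_mul_of_nonneg_left e2 hg.le
      _ ≤ Λ⁻¹ ^ 2 := e8
      _ ≤ δ ^ 2 := pow_le_pow_left₀ (by positivity) hδΛ 2
  have hG : GmC Q L.om δ KG g := fun G hG =>
    hGM Q L.om δ Λ KG hΛ hb.cardQ (fun i => ⟨hb.om1 i, hb.om2 i⟩) hδΛ hδ1 rfl g hg hgG G hG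
  have hV' : ∀ y, n2 y ≤ R ^ 2 → L.v y ≤ V := by rw [hLv]; exact hV
  obtain ⟨r1, r2, r3, r4, r5⟩ := upbu_core L hb hδ hδr hR hV0 hV' (by linarith) hg hg1 hg2 hG ψ hψ hψs
  have hkM : kk L Λ R V KG ≤ M := by
    rw [hMe]
    exact kk_le L hb hR hV0 hKG1
  have hΨ0 : 0 ≤ ∫ C, ψ C ^ 2 := integral_nonneg fun C => sq_nonneg _
  have hS0 : 0 ≤ ∫ C, (ψ C ^ 2 + g2 ψ C) := integral_nonneg fun C =>
    add_nonneg (sq_nonneg _) (g2_nonneg _ _)
  have hkg : kk L Λ R V KG * g ≤ M * g := mul_le_mul_of_nonneg_right hkM hg.le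
  refine ⟨r1, r2, ?_, r4, ?_⟩
  · refine le_trans ?_ r3
    exact mul_le_mul_of_nonneg_right (by linarith) hΨ0
  · refine r5.trans ?_
    have := mul_le_mul_of_nonneg_right hkg hS0
    linarith

end

end Pool.Agent.Q146.LU
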